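import Pool.Agent.Lib.MP_80aaf5_lc.Plant

/-!
# The combinatorial core for Turing reductions: either the reduction fails or the pair intersects
-/

set_option linter.unusedSectionVars false

namespace Pool.Agent.DNP.RT

open ESY.Fin

/-- the finite situation at one epoch -/
structure Game (I Z W J Q : Type) where
  b : Bool × Z × W → J → I
  hb : Inj b
  M : (I → Bool) → (Q → Option Bool) → (Q → Bool) → Z → Option Bool
  A : (I → Bool) → Q → Prop
  B : (I → Bool) → Q → Prop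
  c : ℕ
  locM : ∀ (ω : I → Bool) (z : Z), ∃ (S : (Q → Option Bool) → Finset I)
    (G : (Q → Option Bool) → Finset Q),
    (∀ s, (S s).card ≤ c ∧ (G s).card ≤ c) ∧ ∀ (s₁ s₂ : Q → Option Bool) (T : Q → Bool),
      (∀ q ∈ G s₁, q ∈ G s₂ → (∀ v, s₁ q = some v → T q = v) ∧ ∀ v, s₂ q = some v → T q = v) →
      ∀ (ω₁ ω₂ : I → Bool) (T₁ T₂ : Q → Bool),
        (∀ i ∈ S s₁, i ∈ S s₂ → ω₁ i = ω i ∧ ω₂ i = ω i) →
        (∀ q ∈ G s₁, q ∈ G s₂ → T₁ q = T q ∧ T₂ q = T q) →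
          M ω₁ s₁ T₁ z = none ∨ M ω₂ s₂ T₂ z = none ∨ M ω₁ s₁ T₁ z = M ω₂ s₂ T₂ z
  locA : ∀ ω q, A ω q → ∃ S : Finset I, S.card ≤ c ∧ ∀ ω', (∀ i ∈ S, ω' i = ω i) → A ω' q
  locB : ∀ ω q, B ω q → ∃ S : Finset I, S.card ≤ c ∧ ∀ ω', (∀ i ∈ S, ω' i = ω i) → B ω' q

namespace Game

variable {I Z W J Q : Type} [Finite I] [Finite Z] [Finite W] [Finite J] (g : Game I Z W J Q)

/-- `T` separates the pair -/
def Sep (ω : I → Bool) (T : Q → Bool) : Prop :=
  (∀ q, g.A ω q → T q = true) ∧ ∀ q, g.B ω q → T q = false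

open Classical in
/-- the forced answers -/
noncomputable def ins (ω : I → Bool) (q : Q) : Option Bool :=
  if g.A ω q then some true else if g.B ω q then some false else none

/-- with some separator the machine does not give the answer `a` -/
def Bad (ω : I → Bool) (z : Z) (a : Bool) : Prop :=
  ∃ T, g.Sep ω T ∧ g.M ω (g.ins ω) T z ≠ some a

/-- the reduction fails -/
def Fail (ω : I → Bool) : Prop :=
  ∃ z w, (Wit g.b ω (true, z, w) ∧ g.Bad ω z true) ∨ (Wit g.b ω (false, z, w) ∧ g.Bad ω z false)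

/-- the pair intersects -/
def Dbl (ω : I → Bool) : Prop := ∃ q, g.A ω q ∧ g.B ω q

theorem touch' (s : Bool) (z : Z) (S : Finset I) :
    (cnt (fun w => ∃ i ∈ S, ∃ j, g.b (s, z, w) j = i) : ℝ) ≤ S.card := by
  refine touch (b := fun w j => g.b (s, z, w) j) (fun y y' j j' h => ?_) S
  have := g.hb _ _ _ _ h
  simp only [Prod.mk.injEq, true_and] at this
  exact this

/-- certificates for all that holds at `ω` about the strings of `G`, and for one element of the
intersection -/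
theorem certs (ω : I → Bool) (G : Finset Q) (hG : G.card ≤ g.c) :
    ∃ C : Finset I, C.card ≤ 2 * g.c * (g.c + 1) ∧ ∀ ω', (∀ i ∈ C, ω' i = ω i) →
      (∀ q ∈ G, g.A ω q → g.A ω' q) ∧ (∀ q ∈ G, g.B ω q → g.B ω' q) ∧
        (g.Dbl ω → g.Dbl ω') := by
  classical
  have hA : ∀ q, ∃ C : Finset I, C.card ≤ g.c ∧ (g.A ω q → ∀ ω', (∀ i ∈ C, ω' i = ω i) →
      g.A ω' q) := by
    intro q
    by_cases h : g.A ω q
    · obtain ⟨C, h1, h2⟩ := g.locA _ _ h
      exact ⟨C, h1, fun _ => h2⟩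
    · exact ⟨∅, by simp, fun h' => absurd h' h⟩
  have hB : ∀ q, ∃ C : Finset I, C.card ≤ g.c ∧ (g.B ω q → ∀ ω', (∀ i ∈ C, ω' i = ω i) →
      g.B ω' q) := by
    intro q
    by_cases h : g.B ω q
    · obtain ⟨C, h1, h2⟩ := g.locB _ _ h
      exact ⟨C, h1, fun _ => h2⟩
    · exact ⟨∅, by simp, fun h' => absurd h' h⟩
  choose CA hA1 hA2 using hA
  choose CB hB1 hB2 using hB
  have hD : ∃ C : Finset I, C.card ≤ 2 * g.c ∧ (g.Dbl ω → ∀ ω', (∀ i ∈ C, ω' i = ω i) →
      g.Dbl ω') := by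
    by_cases h : g.Dbl ω
    · obtain ⟨q, h1, h2⟩ := h
      refine ⟨CA q ∪ CB q, (Finset.card_union_le _ _).trans ?_, fun _ ω' h' => ⟨q, ?_, ?_⟩⟩
      · have := hA1 q
        have := hB1 q
        omega
      · exact hA2 q h1 ω' fun i hi => h' i (Finset.mem_union_left _ hi)
      · exact hB2 q h2 ω' fun i hi => h' i (Finset.mem_union_right _ hi)
    · exact ⟨∅, by simp, fun h' => absurd h' h⟩
  obtain ⟨CD, hD1, hD2⟩ := hD
  refine ⟨G.biUnion (fun q => CA q ∪ CB q) ∪ CD, ?_, fun ω' h' => ⟨fun q hq ha => ?_,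
    fun q hq hb => ?_, fun hd => ?_⟩⟩
  · refine (Finset.card_union_le _ _).trans ?_
    have h1 : (G.biUnion fun q => CA q ∪ CB q).card ≤ G.card * (2 * g.c) := by
      refine Finset.card_biUnion_le_card_mul _ _ _ fun q _ => ?_
      refine (Finset.card_union_le _ _).trans ?_
      have := hA1 q
      have := hB1 q
      omega
    have h2 : G.card * (2 * g.c) ≤ g.c * (2 * g.c) := Nat.mul_le_mul_right _ hG
    nlinarith
  · exact hA2 q ha ω' fun i hi => h' i (Finset.mem_union_left _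
      (Finset.mem_biUnion.2 ⟨q, hq, Finset.mem_union_left _ hi⟩))
  · exact hB2 q hb ω' fun i hi => h' i (Finset.mem_union_left _
      (Finset.mem_biUnion.2 ⟨q, hq, Finset.mem_union_right _ hi⟩))
  · exact hD2 hd ω' fun i hi => h' i (Finset.mem_union_right _ hi)

/-- The key: if neither planting touches what the other one rests on, then the doubly planted
pair intersects or the machine errs at one of the singly planted points. -/
theorem key {ω ω₁ ω₂ ω₃ : I → Bool} {z : Z} {S : (Q → Option Bool) → Finset I}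
    {G : (Q → Option Bool) → Finset Q}
    (hM : ∀ (s₁ s₂ : Q → Option Bool) (T : Q → Bool),
      (∀ q ∈ G s₁, q ∈ G s₂ → (∀ v, s₁ q = some v → T q = v) ∧ ∀ v, s₂ q = some v → T q = v) →
      ∀ (ω₁ ω₂ : I → Bool) (T₁ T₂ : Q → Bool),
        (∀ i ∈ S s₁, i ∈ S s₂ → ω₁ i = ω i ∧ ω₂ i = ω i) →
        (∀ q ∈ G s₁, q ∈ G s₂ → T₁ q = T q ∧ T₂ q = T q) →
          g.M ω₁ s₁ T₁ z = none ∨ g.M ω₂ s₂ T₂ z = none ∨ g.M ω₁ s₁ T₁ z = g.M ω₂ s₂ T₂ z)
    (h1 : ∀ i ∈ S (g.ins ω₂), ω₁ i = ω i) (h2 : ∀ i ∈ S (g.ins ω₁), ω₂ i = ω i)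
    (h13 : (∀ q ∈ G (g.ins ω₁), g.A ω₁ q → g.A ω₃ q) ∧
      (∀ q ∈ G (g.ins ω₁), g.B ω₁ q → g.B ω₃ q) ∧ (g.Dbl ω₁ → g.Dbl ω₃))
    (h23 : (∀ q ∈ G (g.ins ω₂), g.A ω₂ q → g.A ω₃ q) ∧
      (∀ q ∈ G (g.ins ω₂), g.B ω₂ q → g.B ω₃ q) ∧ (g.Dbl ω₂ → g.Dbl ω₃)) :
    g.Dbl ω₃ ∨ g.Bad ω₁ z true ∨ g.Bad ω₂ z false := by
  classical
  by_cases hd : g.Dbl ω₃
  · exact Or.inl hd
  right
  have hd1 : ¬ g.Dbl ω₁ := fun h => hd (h13.2.2 h)
  have hd2 : ¬ g.Dbl ω₂ := fun h => hd (h23.2.2 h)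
  let T0 : Q → Bool := fun q => decide (g.A ω₁ q ∨ g.A ω₂ q)
  let T1 : Q → Bool := fun q => if q ∈ G (g.ins ω₁) ∧ q ∈ G (g.ins ω₂) then T0 q
    else decide (g.A ω₁ q)
  let T2 : Q → Bool := fun q => if q ∈ G (g.ins ω₁) ∧ q ∈ G (g.ins ω₂) then T0 q
    else decide (g.A ω₂ q)
  have hnB1 : ∀ q, q ∈ G (g.ins ω₁) ∧ q ∈ G (g.ins ω₂) → g.B ω₁ q → T0 q = false := by
    intro q hG hq
    have hA1 : ¬ g.A ω₁ q := fun h => hd1 ⟨q, h, hq⟩
    have hA2 : ¬ g.A ω₂ q := fun h => hd ⟨q, h23.1 q hG.2 h, h13.2.1 q hG.1 hq⟩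
    simp [T0, hA1, hA2]
  have hnB2 : ∀ q, q ∈ G (g.ins ω₁) ∧ q ∈ G (g.ins ω₂) → g.B ω₂ q → T0 q = false := by
    intro q hG hq
    have hA2 : ¬ g.A ω₂ q := fun h => hd2 ⟨q, h, hq⟩
    have hA1 : ¬ g.A ω₁ q := fun h => hd ⟨q, h13.1 q hG.1 h, h23.2.1 q hG.2 hq⟩
    simp [T0, hA1, hA2]
  have hS1 : g.Sep ω₁ T1 := by
    refine ⟨fun q hq => ?_, fun q hq => ?_⟩
    · by_cases hG : q ∈ G (g.ins ω₁) ∧ q ∈ G (g.ins ω₂)
      · simp only [T1, if_pos hG]
        simp [T0, hq]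
      · simp only [T1, if_neg hG]
        simp [hq]
    · by_cases hG : q ∈ G (g.ins ω₁) ∧ q ∈ G (g.ins ω₂)
      · simp only [T1, if_pos hG]
        exact hnB1 q hG hq
      · have hA1 : ¬ g.A ω₁ q := fun h => hd1 ⟨q, h, hq⟩
        simp only [T1, if_neg hG]
        simp [hA1]
  have hS2 : g.Sep ω₂ T2 := by
    refine ⟨fun q hq => ?_, fun q hq => ?_⟩
    · by_cases hG : q ∈ G (g.ins ω₁) ∧ q ∈ G (g.ins ω₂)
      · simp only [T2, if_pos hG]
        simp [T0, hq]
      · simp only [T2, if_neg hG]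
        simp [hq]
    · by_cases hG : q ∈ G (g.ins ω₁) ∧ q ∈ G (g.ins ω₂)
      · simp only [T2, if_pos hG]
        exact hnB2 q hG hq
      · have hA2 : ¬ g.A ω₂ q := fun h => hd2 ⟨q, h, hq⟩
        simp only [T2, if_neg hG]
        simp [hA2]
  have hcase := hM (g.ins ω₁) (g.ins ω₂) T0 (fun q hq hq' => ⟨fun v hv => ?_, fun v hv => ?_⟩)
    ω₁ ω₂ T1 T2 (fun i hi hi' => ⟨h1 i hi', h2 i hi⟩) (fun q hq hq' => ?_)
  · rcases hcase with h | h | h
    · exact Or.inl ⟨T1, hS1, by rw [h]; simp⟩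
    · exact Or.inr ⟨T2, hS2, by rw [h]; simp⟩
    · by_cases h' : g.M ω₁ (g.ins ω₁) T1 z = some true
      · right
        refine ⟨T2, hS2, ?_⟩
        rw [← h, h']
        decide
      · exact Or.inl ⟨T1, hS1, h'⟩
  · unfold ins at hv
    split_ifs at hv with ha hb
    · have : v = true := by simpa using hv.symm
      rw [this]
      simp [T0, ha]
    · have : v = false := by simpa using hv.symm
      rw [this]
      exact hnB1 q ⟨hq, hq'⟩ hb
  · unfold ins at hv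
    split_ifs at hv with ha hb
    · have : v = true := by simpa using hv.symm
      rw [this]
      simp [T0, ha]
    · have : v = false := by simpa using hv.symm
      rw [this]
      exact hnB2 q ⟨hq, hq'⟩ hb
  · exact ⟨by simp only [T1, if_pos (And.intro hq hq')],
      by simp only [T2, if_pos (And.intro hq hq')]⟩

/-- for a fixed background -/
theorem local_count (hc : 1 ≤ g.c) (ω : I → Bool) (z : Z) :
    (Nat.card W : ℝ) ^ 2 ≤
      cnt (fun p : W × W => g.Dbl (plant g.b (true, z, p.1) (plant g.b (false, z, p.2) ω))) +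
      Nat.card W * cnt (fun w => g.Bad (plant g.b (true, z, w) ω) z true) +
      Nat.card W * cnt (fun w => g.Bad (plant g.b (false, z, w) ω) z false) +
      10 * (g.c : ℝ) ^ 2 * Nat.card W := by
  classical
  obtain ⟨S, G, hSG, hM⟩ := g.locM ω z
  have hC : ∀ (s : Bool) (w : W), ∃ C : Finset I, C.card ≤ 2 * g.c * (g.c + 1) + g.c ∧
      (∀ i ∈ S (g.ins (plant g.b (s, z, w) ω)), i ∈ C) ∧ ∀ ω',
      (∀ i ∈ C, ω' i = plant g.b (s, z, w) ω i) →
      (∀ q ∈ G (g.ins (plant g.b (s, z, w) ω)), g.A (plant g.b (s, z, w) ω) q → g.A ω' q) ∧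
      (∀ q ∈ G (g.ins (plant g.b (s, z, w) ω)), g.B (plant g.b (s, z, w) ω) q → g.B ω' q) ∧
        (g.Dbl (plant g.b (s, z, w) ω) → g.Dbl ω') := by
    intro s w
    obtain ⟨C, hC1, hC2⟩ := g.certs (plant g.b (s, z, w) ω) _
      (hSG (g.ins (plant g.b (s, z, w) ω))).2
    refine ⟨C ∪ S (g.ins (plant g.b (s, z, w) ω)), ?_, fun i hi => Finset.mem_union_right _ hi,
      fun ω' h => hC2 ω' fun i hi => h i (Finset.mem_union_left _ hi)⟩
    refine (Finset.card_union_le _ _).trans (Nat.add_le_add hC1 (hSG _).1)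
  choose C hC1 hC3 hC2 using hC
  set N : ℝ := (Nat.card W : ℝ) with hN
  let P0 : W × W → Prop := fun p =>
    g.Dbl (plant g.b (true, z, p.1) (plant g.b (false, z, p.2) ω))
  let E2 : W → Prop := fun w => g.Bad (plant g.b (true, z, w) ω) z true
  let E3 : W → Prop := fun w => g.Bad (plant g.b (false, z, w) ω) z false
  let E6 : W × W → Prop := fun p => ∃ i ∈ C true p.1, ∃ j, g.b (false, z, p.2) j = i
  let E7 : W × W → Prop := fun p => ∃ i ∈ C false p.2, ∃ j, g.b (true, z, p.1) j = i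
  have hall : cnt (fun _ : W × W => True) ≤ cnt P0 + (cnt (fun p : W × W => E2 p.1) +
      (cnt (fun p : W × W => E3 p.2) + (cnt E6 + cnt E7))) := by
    refine le_trans (cnt_mono fun p _ => ?_) ((cnt_or P0 _).trans (Nat.add_le_add_left
      ((cnt_or (fun p : W × W => E2 p.1) _).trans (Nat.add_le_add_left
      ((cnt_or (fun p : W × W => E3 p.2) _).trans (Nat.add_le_add_left
      (cnt_or E6 E7) _)) _)) _))
    by_cases h6 : E6 p
    · exact Or.inr (Or.inr (Or.inr (Or.inl h6)))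
    by_cases h7 : E7 p
    · exact Or.inr (Or.inr (Or.inr (Or.inr h7)))
    obtain ⟨w, w'⟩ := p
    have h13 := hC2 true w (plant g.b (true, z, w) (plant g.b (false, z, w') ω)) (by
      rw [plant_comm]
      exact plant_agree h6 _)
    have h23 := hC2 false w' (plant g.b (true, z, w) (plant g.b (false, z, w') ω))
      (plant_agree h7 _)
    rcases g.key hM (fun i hi => plant_agree h7 ω i (hC3 false w' i hi))
      (fun i hi => plant_agree h6 ω i (hC3 true w i hi)) h13 h23 with h | h | h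
    · exact Or.inl h
    · exact Or.inr (Or.inl h)
    · exact Or.inr (Or.inr (Or.inl h))
  have hfst : ∀ E : W → Prop, (cnt (fun p : W × W => E p.1) : ℝ) ≤ cnt E * N := by
    intro E
    exact cnt_prod_le (fun p : W × W => E p.1) E N (fun a b h => h) fun a _ =>
      Nat.cast_le.2 (cnt_le_card _)
  have hswap : ∀ E : W × W → Prop, cnt (fun p : W × W => E (p.2, p.1)) = cnt E := fun E =>
    cnt_equiv (Equiv.prodComm W W) E
  have hsnd : ∀ E : W → Prop, (cnt (fun p : W × W => E p.2) : ℝ) ≤ cnt E * N := by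
    intro E
    rw [← hswap (fun p : W × W => E p.2)]
    exact hfst E
  have hcard : (cnt (fun _ : W × W => True) : ℝ) = N ^ 2 := by
    rw [cnt_true (fun _ => trivial), Nat.card_prod]
    push_cast
    ring
  have hCr : ∀ s w, ((C s w).card : ℝ) ≤ 2 * g.c * (g.c + 1) + g.c := fun s w => by
    exact_mod_cast hC1 s w
  have k6 : (cnt E6 : ℝ) ≤ N * (2 * g.c * (g.c + 1) + g.c) := by
    have h := cnt_prod_le E6 (fun _ => True) (2 * g.c * (g.c + 1) + g.c : ℝ) (fun _ _ _ => trivial)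
      fun w _ => (g.touch' false z (C true w)).trans (hCr _ _)
    rwa [cnt_true (fun _ => trivial)] at h
  have k7 : (cnt E7 : ℝ) ≤ N * (2 * g.c * (g.c + 1) + g.c) := by
    rw [← hswap E7]
    have h := cnt_prod_le (fun p : W × W => E7 (p.2, p.1)) (fun _ => True)
      (2 * g.c * (g.c + 1) + g.c : ℝ) (fun _ _ _ => trivial)
      fun w _ => (g.touch' true z (C false w)).trans (hCr _ _)
    rwa [cnt_true (fun _ => trivial)] at h
  have k2 := hfst E2
  have k3 := hsnd E3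
  have hN0 : 0 ≤ N := Nat.cast_nonneg _
  have hall' : N ^ 2 ≤ cnt P0 + (cnt (fun p : W × W => E2 p.1) +
      (cnt (fun p : W × W => E3 p.2) + (cnt E6 + cnt E7))) := by
    rw [← hcard]
    exact_mod_cast hall
  have hc1 : (1 : ℝ) ≤ g.c := Nat.one_le_cast.2 hc
  have hcc : (g.c : ℝ) ≤ (g.c : ℝ) ^ 2 := by nlinarith
  have hcN : (g.c : ℝ) * N ≤ (g.c : ℝ) ^ 2 * N := mul_le_mul_of_nonneg_right hcc hN0
  have : N ^ 2 ≤ cnt P0 + N * cnt E2 + N * cnt E3 + 10 * (g.c : ℝ) ^ 2 * N := by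
    have e : N * (2 * (g.c : ℝ) * (g.c + 1) + g.c) = 2 * ((g.c : ℝ) ^ 2 * N) + 3 * (g.c * N) := by
      ring
    rw [e] at k6 k7
    linarith
  exact this

theorem nowit (hJ : 2 ^ Nat.card J = 16 * Nat.card Z * Nat.card W) :
    8 * cnt (fun ω => ¬ NoWit g.b ω) ≤ Nat.card (I → Bool) := by
  classical
  have := Fintype.ofFinite (Bool × Z × W)
  have h1 := cnt_exists_le (Finset.univ : Finset (Bool × Z × W))
    (fun y ω => Wit g.b ω y) ((Nat.card (I → Bool) : ℝ) / 2 ^ Nat.card J) (fun y _ => by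
      rw [le_div_iff₀ (by positivity)]
      have := card_wit g.hb y
      have h2 : (2 : ℝ) ^ Nat.card J * cnt (fun ω => Wit g.b ω y) ≤ Nat.card (I → Bool) := by
        exact_mod_cast this
      linarith)
  have h2 : cnt (fun ω => ¬ NoWit g.b ω) ≤ cnt (fun ω => ∃ y ∈ (Finset.univ :
      Finset (Bool × Z × W)), Wit g.b ω y) := by
    refine cnt_mono fun ω hω => ?_
    unfold NoWit at hω
    push Not at hω
    obtain ⟨y, hy⟩ := hω
    exact ⟨y, Finset.mem_univ _, hy⟩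
  have h3 : ((Finset.univ : Finset (Bool × Z × W)).card : ℝ) = 2 * (Nat.card Z * Nat.card W) := by
    rw [Finset.card_univ, ← Nat.card_eq_fintype_card, Nat.card_prod, Nat.card_prod]
    simp
  rw [h3] at h1
  have h4 : (cnt (fun ω => ¬ NoWit g.b ω) : ℝ) ≤
      2 * (Nat.card Z * Nat.card W) * ((Nat.card (I → Bool) : ℝ) / 2 ^ Nat.card J) :=
    le_trans (by exact_mod_cast h2) h1
  have h5 : (2 : ℝ) ^ Nat.card J = 16 * Nat.card Z * Nat.card W := by exact_mod_cast hJ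
  have h6 : (0 : ℝ) < 2 ^ Nat.card J := by positivity
  have h7 : 2 * ((Nat.card Z : ℝ) * Nat.card W) * ((Nat.card (I → Bool) : ℝ) / 2 ^ Nat.card J) =
      Nat.card (I → Bool) / 8 := by
    rw [mul_div_assoc', div_eq_div_iff h6.ne' (by norm_num), h5]
    ring
  rw [h7] at h4
  have h8 : (8 : ℝ) * cnt (fun ω => ¬ NoWit g.b ω) ≤ Nat.card (I → Bool) := by linarith
  exact_mod_cast h8

/-- **The core.** -/
theorem core (hc1 : 1 ≤ g.c) (hc : 80 * g.c ^ 2 ≤ Nat.card W)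
    (hJ : 2 ^ Nat.card J = 16 * Nat.card Z * Nat.card W) :
    Nat.card (I → Bool) ≤ 128 * cnt g.Fail ∨
      (Nat.card (I → Bool) : ℝ) ≤ 1024 * Nat.card Z * cnt g.Dbl := by
  classical
  have := Fintype.ofFinite Z
  have := Fintype.ofFinite W
  have := Fintype.ofFinite I
  by_cases hfail : Nat.card (I → Bool) ≤ 128 * cnt g.Fail
  · exact Or.inl hfail
  right
  set Ωc : ℝ := (Nat.card (I → Bool) : ℝ) with hΩc
  set M : ℝ := (Nat.card Z : ℝ) with hM
  set N : ℝ := (Nat.card W : ℝ) with hN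
  set s : ℝ := (2 : ℝ) ^ Nat.card J with hs
  have hsJ : s = 16 * M * N := by
    rw [hs, hM, hN]
    exact_mod_cast hJ
  have hspos : 0 < s := by positivity
  have hM0 : 0 ≤ M := Nat.cast_nonneg _
  have hN0 : 0 ≤ N := Nat.cast_nonneg _
  have hMN : 0 < M * N := by nlinarith
  have hMpos : 0 < M := by
    rcases hM0.eq_or_lt with h | h
    · rw [← h] at hMN; simp at hMN
    · exact h
  have hNpos : 0 < N := by
    rcases hN0.eq_or_lt with h | h
    · rw [← h] at hMN; simp at hMN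
    · exact h
  have hfail' : 128 * (cnt g.Fail : ℝ) < Ωc := by
    rw [hΩc]
    exact_mod_cast not_le.1 hfail
  -- single plantings
  have single : ∀ (sd : Bool) (P : (I → Bool) → Z → Prop)
      (hP : ∀ ω z w, NoWit g.b ω → P (plant g.b (sd, z, w) ω) z →
        g.Fail (plant g.b (sd, z, w) ω)),
      (cnt (fun p : (Z × W) × (I → Bool) => NoWit g.b p.2 ∧
        P (plant g.b (sd, p.1) p.2) p.1.1) : ℝ) ≤ s * cnt g.Fail := by
    intro sd P hP
    have h1 := plant_one g.hb g.Fail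
    have h2 : cnt (fun p : (Z × W) × (I → Bool) => NoWit g.b p.2 ∧
        P (plant g.b (sd, p.1) p.2) p.1.1) ≤
        cnt (fun p : (Bool × Z × W) × (I → Bool) => NoWit g.b p.2 ∧
          g.Fail (plant g.b p.1 p.2)) := by
      refine cnt_inj (fun p => ((sd, p.1), p.2)) (fun p hp => ⟨hp.1, ?_⟩) ?_
      · exact hP p.2 p.1.1 p.1.2 hp.1 hp.2
      · rintro ⟨a, ω⟩ ⟨a', ω'⟩ _ _ h
        simp only [Prod.mk.injEq, true_and] at h
        exact Prod.ext h.1 h.2
    have h3 := h2.trans h1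
    have h4 : (cnt (fun p : (Z × W) × (I → Bool) => NoWit g.b p.2 ∧
        P (plant g.b (sd, p.1) p.2) p.1.1) : ℝ) ≤
        ((2 ^ Nat.card J * cnt g.Fail : ℕ) : ℝ) := by exact_mod_cast h3
    refine h4.trans (le_of_eq ?_)
    push_cast
    rfl
  have hα := single true (fun ω z => g.Bad ω z true) (fun ω z w _ h =>
    ⟨z, w, Or.inl ⟨wit_plant g.b _ ω, h⟩⟩)
  have hβ := single false (fun ω z => g.Bad ω z false) (fun ω z w _ h =>
    ⟨z, w, Or.inr ⟨wit_plant g.b _ ω, h⟩⟩)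
  -- sums over the background
  have hsum : ∀ (sd : Bool) (P : (I → Bool) → Z → Prop),
      (cnt (fun p : (Z × W) × (I → Bool) => NoWit g.b p.2 ∧
        P (plant g.b (sd, p.1) p.2) p.1.1) : ℝ) =
      ∑ ω : I → Bool, ∑ z : Z, if NoWit g.b ω then
        (cnt (fun w => P (plant g.b (sd, z, w) ω) z) : ℝ) else 0 := by
    intro sd P
    rw [cnt_prod']
    push_cast
    refine Finset.sum_congr rfl fun ω _ => ?_
    by_cases h : NoWit g.b ω
    · simp only [h, true_and, if_true]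
      rw [cnt_prod]
      push_cast
      rfl
    · simp only [h, false_and, if_false]
      rw [cnt_false (fun _ hh => hh)]
      simp
  let D : (I → Bool) → Z → ℝ := fun ω z => (cnt (fun p : W × W =>
    g.Dbl (plant g.b (true, z, p.1) (plant g.b (false, z, p.2) ω))) : ℝ)
  have hloc : ∑ ω : I → Bool, ∑ _z : Z, (if NoWit g.b ω then N ^ 2 else 0) ≤
      (∑ ω : I → Bool, ∑ z : Z, if NoWit g.b ω then D ω z else 0) +
      N * (∑ ω : I → Bool, ∑ z : Z, if NoWit g.b ω then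
        (cnt (fun w => g.Bad (plant g.b (true, z, w) ω) z true) : ℝ) else 0) +
      N * (∑ ω : I → Bool, ∑ z : Z, if NoWit g.b ω then
        (cnt (fun w => g.Bad (plant g.b (false, z, w) ω) z false) : ℝ) else 0) +
      ∑ _ω : I → Bool, ∑ _z : Z, 10 * (g.c : ℝ) ^ 2 * N := by
    rw [Finset.mul_sum, Finset.mul_sum, ← Finset.sum_add_distrib, ← Finset.sum_add_distrib,
      ← Finset.sum_add_distrib]
    refine Finset.sum_le_sum fun ω _ => ?_
    rw [Finset.mul_sum, Finset.mul_sum, ← Finset.sum_add_distrib, ← Finset.sum_add_distrib,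
      ← Finset.sum_add_distrib]
    refine Finset.sum_le_sum fun z _ => ?_
    by_cases h : NoWit g.b ω
    · simp only [h, if_true]
      exact g.local_count hc1 ω z
    · simp only [h, if_false]
      positivity
  rw [← hsum true (fun ω z => g.Bad ω z true), ← hsum false (fun ω z => g.Bad ω z false)]
    at hloc
  -- the left side
  have hl : ∑ ω : I → Bool, ∑ _z : Z, (if NoWit g.b ω then N ^ 2 else 0) =
      (cnt (NoWit g.b) : ℝ) * (M * N ^ 2) := by
    rw [cnt_eq_sum]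
    push_cast
    rw [Finset.sum_mul]
    refine Finset.sum_congr rfl fun ω _ => ?_
    rw [Finset.sum_const, Finset.card_univ, ← Nat.card_eq_fintype_card, nsmul_eq_mul]
    split_ifs <;> simp [hM]
  have hr : ∑ _ω : I → Bool, ∑ _z : Z, 10 * (g.c : ℝ) ^ 2 * N =
      Ωc * (M * (10 * (g.c : ℝ) ^ 2 * N)) := by
    rw [Finset.sum_const, Finset.card_univ, ← Nat.card_eq_fintype_card, nsmul_eq_mul,
      Finset.sum_const, Finset.card_univ, ← Nat.card_eq_fintype_card, nsmul_eq_mul]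
  -- the double plantings
  have hd : (∑ ω : I → Bool, ∑ z : Z, if NoWit g.b ω then D ω z else 0) ≤
      2 * s ^ 2 * cnt g.Dbl := by
    have h1 := plant_two g.hb g.Dbl
    have h2 : cnt (fun p : (I → Bool) × (Z × (W × W)) => NoWit g.b p.1 ∧
        g.Dbl (plant g.b (true, p.2.1, p.2.2.1) (plant g.b (false, p.2.1, p.2.2.2) p.1))) ≤
        cnt (fun p : (I → Bool) × ((Bool × Z × W) × (Bool × Z × W)) => NoWit g.b p.1 ∧
          p.2.1 ≠ p.2.2 ∧ g.Dbl (plant g.b p.2.1 (plant g.b p.2.2 p.1))) := by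
      refine cnt_inj (fun p => (p.1, ((true, p.2.1, p.2.2.1), (false, p.2.1, p.2.2.2))))
        (fun p hp => ⟨hp.1, by simp, hp.2⟩) ?_
      rintro ⟨ω, z, w, w'⟩ ⟨ω1, z1, w1, w1'⟩ _ _ h
      simp only [Prod.mk.injEq, true_and] at h
      obtain ⟨rfl, ⟨rfl, rfl⟩, -, rfl⟩ := h
      rfl
    have h3 : (∑ ω : I → Bool, ∑ z : Z, if NoWit g.b ω then D ω z else 0) =
        cnt (fun p : (I → Bool) × (Z × (W × W)) => NoWit g.b p.1 ∧
        g.Dbl (plant g.b (true, p.2.1, p.2.2.1) (plant g.b (false, p.2.1, p.2.2.2) p.1))) := by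
      rw [cnt_prod]
      push_cast
      refine Finset.sum_congr rfl fun ω _ => ?_
      by_cases h : NoWit g.b ω
      · simp only [h, true_and, if_true]
        rw [cnt_prod]
        push_cast
        rfl
      · simp only [h, false_and, if_false]
        rw [cnt_false (fun _ hh => hh)]
        simp
    rw [h3]
    have h4 : (cnt (fun p : (I → Bool) × (Z × (W × W)) => NoWit g.b p.1 ∧
        g.Dbl (plant g.b (true, p.2.1, p.2.2.1) (plant g.b (false, p.2.1, p.2.2.2) p.1))) : ℝ) ≤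
        ((2 * (2 ^ Nat.card J) ^ 2 * cnt g.Dbl : ℕ) : ℝ) := by exact_mod_cast h2.trans h1
    refine h4.trans (le_of_eq ?_)
    push_cast
    rfl
  have hno : (7 : ℝ) * Ωc ≤ 8 * cnt (NoWit g.b) := by
    have h1 := g.nowit hJ
    have h2 : Nat.card (I → Bool) = cnt (NoWit g.b) + cnt (fun ω => ¬ NoWit g.b ω) := by
      rw [← cnt_true (P := fun _ : I → Bool => True) (fun _ => trivial),
        cnt_split (fun _ : I → Bool => True) (NoWit g.b)]
      simp only [true_and]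
    have h3 : 7 * Nat.card (I → Bool) ≤ 8 * cnt (NoWit g.b) := by omega
    rw [hΩc]
    exact_mod_cast h3
  have hc' : 80 * (g.c : ℝ) ^ 2 ≤ N := by rw [hN]; exact_mod_cast hc
  have hΩ0 : 0 ≤ Ωc := Nat.cast_nonneg _
  rw [hl, hr] at hloc
  -- arithmetic
  have a1 : (7 / 8) * Ωc * (M * N ^ 2) ≤ cnt (NoWit g.b) * (M * N ^ 2) :=
    mul_le_mul_of_nonneg_right (by linarith) (by positivity)
  have a2 : N * (s * cnt g.Fail) ≤ (1 / 8) * Ωc * (M * N ^ 2) := by
    rw [hsJ]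
    have : 16 * M * N * (cnt g.Fail : ℝ) ≤ 16 * M * N * (Ωc / 128) :=
      mul_le_mul_of_nonneg_left (by linarith) (by positivity)
    calc N * (16 * M * N * (cnt g.Fail : ℝ)) ≤ N * (16 * M * N * (Ωc / 128)) :=
          mul_le_mul_of_nonneg_left this hN0
      _ = (1 / 8) * Ωc * (M * N ^ 2) := by ring
  have a3 : Ωc * (M * (10 * (g.c : ℝ) ^ 2 * N)) ≤ (1 / 8) * Ωc * (M * N ^ 2) := by
    have : 10 * (g.c : ℝ) ^ 2 * N ≤ (1 / 8) * N ^ 2 := by nlinarith
    calc Ωc * (M * (10 * (g.c : ℝ) ^ 2 * N)) ≤ Ωc * (M * ((1 / 8) * N ^ 2)) :=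
          mul_le_mul_of_nonneg_left (mul_le_mul_of_nonneg_left this hM0) hΩ0
      _ = _ := by ring
  have a4 := mul_le_mul_of_nonneg_left hα hN0
  have a5 := mul_le_mul_of_nonneg_left hβ hN0
  have a6 : (1 / 2) * Ωc * (M * N ^ 2) ≤ 2 * s ^ 2 * cnt g.Dbl := by linarith
  rw [hsJ] at a6
  have a7 : (M * N ^ 2) * Ωc ≤ (M * N ^ 2) * (1024 * M * cnt g.Dbl) := by
    calc (M * N ^ 2) * Ωc = 2 * ((1 / 2) * Ωc * (M * N ^ 2)) := by ring
      _ ≤ 2 * (2 * (16 * M * N) ^ 2 * cnt g.Dbl) := by linarith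
      _ = _ := by ring
  exact le_of_mul_le_mul_left a7 (by positivity)

end Game

end Pool.Agent.DNP.RT
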