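import Pool.Agent.Lib.MP_b9add9_lc.Defs

/-!
# Turing reductions of disjoint NP-pairs with few surprises
-/

namespace Pool.Agent.DNP

open ESY

open Classical in
/-- The number of surprises in the first `t` rounds of the procedure with next-query function `g`
on the input `x`: a surprise is a question `q`, not in `D`, to the second oracle of the join `O`,
whose answer differs from the prediction which `h` makes from the input and the answers obtained
before (the prediction is `true` if `h` returns `1`, and `false` otherwise). -/
noncomputable def surprises (O : Oracle) (D : Set (List Bool)) (g h : List Bool → List Bool)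
    (x : List Bool) : ℕ → ℕ
  | 0 => 0
  | t + 1 =>
    match g (pr x (answers O g x t)) with
    | false :: true :: q =>
      if q ∉ D ∧ O (true :: q) ≠ decide (h (pr x (answers O g x t)) = [true]) then
        surprises O D g h x t + 1
      else surprises O D g h x t
    | _ => surprises O D g h x t

/-- Turing reducibility of pairs with few surprises: for every separator `S` of `(A, B)` there are
an oracle procedure and a predictor, with polynomial-time functions `g` and `h`, such that on all
`x` in `A' ∪ B'` and with the oracle `O ⊕ S`, within `T c n` rounds, `n` the length of `x`, the
procedure accepts if and only if `x` is in `A'`, and at most `k n` of its questions to `S` which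
are not in `A ∪ B` are answered otherwise than predicted. -/
def TReducesTo (T : ℕ → ℕ → ℕ) (k : ℕ → ℕ) (O : Oracle) (A' B' A B : Set (List Bool)) : Prop :=
  ∀ S, Separator A B S → ∃ (g h : List Bool → List Bool) (c : ℕ), PolyTime g ∧ PolyTime h ∧
    ∀ x ∈ A' ∪ B', surprises (join O S) (A ∪ B) g h x (T c x.length) ≤ k x.length ∧
      (Outputs (join O S) g x (T c x.length) [true] ↔ x ∈ A')

end Pool.Agent.DNP
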