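import Pool.Agent.Lib.MP_b9add9_lc.Model
import Pool.Agent.Lib.MP_b9add9_lc.RT.Defs

/-!
# Runs with forced answers and predictions
-/

namespace Pool.Agent.DNP.RT

open ESY Turing Pool.Agent.PolyTime

/-- The state of a run: the answers, the positions of the wrong predictions, the questions to the
second oracle, and the questions to the first one. -/
structure RS where
  a : List Bool
  o : List ℕ
  s : List (List Bool)
  f : List (List Bool)

/-- the prediction -/
def prd (h : List Bool → List Bool) (x a : List Bool) : Bool := decide (h (pr x a) = [true])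

/-- One step. A question `q` to the second oracle is answered `v` if `F q = some v`; otherwise it
is answered by `σ`. -/
def stepR (O : Oracle) (F : List Bool → Option Bool) (σ : List Bool → List Bool → Bool)
    (g h : List Bool → List Bool) (x : List Bool) (r : RS) : RS :=
  match g (pr x r.a) with
  | false :: true :: q =>
    match F q with
    | some v => ⟨r.a ++ [v], r.o, r.s ++ [q], r.f⟩
    | none => ⟨r.a ++ [σ r.a q], if σ r.a q = prd h x r.a then r.o else r.o ++ [r.a.length],
        r.s ++ [q], r.f⟩
  | false :: false :: q => ⟨r.a ++ [O q], r.o, r.s, r.f ++ [q]⟩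
  | [false] => ⟨r.a ++ [false], r.o, r.s, r.f⟩
  | _ => r

/-- The run. -/
def run (O : Oracle) (F : List Bool → Option Bool) (σ : List Bool → List Bool → Bool)
    (g h : List Bool → List Bool) (x : List Bool) : ℕ → RS
  | 0 => ⟨[], [], [], []⟩
  | t + 1 => stepR O F σ g h x (run O F σ g h x t)

section

variable {O O' : Oracle} {F F' : List Bool → Option Bool} {σ τ : List Bool → List Bool → Bool}
  {g h : List Bool → List Bool} {x : List Bool}

theorem run_succ (t : ℕ) : run O F σ g h x (t + 1) = stepR O F σ g h x (run O F σ g h x t) := rfl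

/-- the cases of a step -/
theorem step_cases (O : Oracle) (F : List Bool → Option Bool) (σ : List Bool → List Bool → Bool)
    (g h : List Bool → List Bool) (x : List Bool) (r : RS) :
    (∃ q v, g (pr x r.a) = false :: true :: q ∧ F q = some v ∧
      stepR O F σ g h x r = ⟨r.a ++ [v], r.o, r.s ++ [q], r.f⟩) ∨
    (∃ q, g (pr x r.a) = false :: true :: q ∧ F q = none ∧
      stepR O F σ g h x r = ⟨r.a ++ [σ r.a q],
        if σ r.a q = prd h x r.a then r.o else r.o ++ [r.a.length], r.s ++ [q], r.f⟩) ∨
    (∃ q, g (pr x r.a) = false :: false :: q ∧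
      stepR O F σ g h x r = ⟨r.a ++ [O q], r.o, r.s, r.f ++ [q]⟩) ∨
    (g (pr x r.a) = [false] ∧ stepR O F σ g h x r = ⟨r.a ++ [false], r.o, r.s, r.f⟩) ∨
    ((∀ q, g (pr x r.a) ≠ false :: q) ∧ stepR O F σ g h x r = r) := by
  unfold stepR
  rcases hv : g (pr x r.a) with _ | ⟨_ | _, _ | ⟨_ | _, q⟩⟩
  · simp
  · simp
  · simp
  · cases hF : F q with
    | none => simp [hF]
    | some v => simp [hF]
  · simp
  · simp
  · simp

/-- a step only adds -/
theorem step_mono (r : RS) : r.o <+: (stepR O F σ g h x r).o ∧ r.s <+: (stepR O F σ g h x r).s ∧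
    r.f <+: (stepR O F σ g h x r).f ∧ r.a.length ≤ (stepR O F σ g h x r).a.length ∧
    (stepR O F σ g h x r).a.length ≤ r.a.length + 1 ∧
    (stepR O F σ g h x r).s.length ≤ r.s.length + 1 ∧
    (stepR O F σ g h x r).f.length ≤ r.f.length + 1 ∧
    ∀ i ∈ (stepR O F σ g h x r).o, i ∈ r.o ∨
      (i = r.a.length ∧ r.a.length < (stepR O F σ g h x r).a.length) := by
  rcases step_cases O F σ g h x r with ⟨q, v, -, -, e⟩ | ⟨q, -, -, e⟩ | ⟨q, -, e⟩ | ⟨-, e⟩ |
    ⟨-, e⟩ <;> rw [e]
  · refine ⟨List.prefix_rfl, List.prefix_append _ _, List.prefix_rfl, by simp, by simp, by simp,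
      by simp, fun i hi => Or.inl hi⟩
  · refine ⟨?_, List.prefix_append _ _, List.prefix_rfl, by simp, by simp, by simp,
      by simp, fun i hi => ?_⟩
    · dsimp only
      split_ifs
      · exact List.prefix_rfl
      · exact List.prefix_append _ _
    · dsimp only at hi ⊢
      split_ifs at hi
      · exact Or.inl hi
      · rcases List.mem_append.1 hi with hi | hi
        · exact Or.inl hi
        · exact Or.inr ⟨by simpa using hi, by simp⟩
  · refine ⟨List.prefix_rfl, List.prefix_rfl, List.prefix_append _ _, by simp, by simp, by simp,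
      by simp, fun i hi => Or.inl hi⟩
  · refine ⟨List.prefix_rfl, List.prefix_rfl, List.prefix_rfl, by simp, by simp, by simp,
      by simp, fun i hi => Or.inl hi⟩
  · refine ⟨List.prefix_rfl, List.prefix_rfl, List.prefix_rfl, by simp, by simp, by simp,
      by simp, fun i hi => Or.inl hi⟩

theorem run_mono {s t : ℕ} (hst : s ≤ t) :
    (run O F σ g h x s).o <+: (run O F σ g h x t).o ∧
    (run O F σ g h x s).s <+: (run O F σ g h x t).s ∧
    (run O F σ g h x s).f <+: (run O F σ g h x t).f ∧
    (run O F σ g h x s).a.length ≤ (run O F σ g h x t).a.length ∧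
    ∀ i ∈ (run O F σ g h x t).o, i < (run O F σ g h x s).a.length →
      i ∈ (run O F σ g h x s).o := by
  induction t, hst using Nat.le_induction with
  | base => exact ⟨List.prefix_rfl, List.prefix_rfl, List.prefix_rfl, le_rfl, fun _ hi _ => hi⟩
  | succ t _ ih =>
    obtain ⟨i1, i2, i3, i4, i5⟩ := ih
    obtain ⟨m1, m2, m3, m4, -, -, -, m8⟩ := step_mono (O := O) (F := F) (σ := σ) (g := g) (h := h)
      (x := x) (run O F σ g h x t)
    rw [run_succ]
    refine ⟨i1.trans m1, i2.trans m2, i3.trans m3, i4.trans m4, fun i hi hlt => ?_⟩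
    rcases m8 i hi with h1 | ⟨h1, -⟩
    · exact i5 i h1 hlt
    · omega

theorem run_len (t : ℕ) : (run O F σ g h x t).a.length ≤ t ∧ (run O F σ g h x t).s.length ≤ t ∧
    (run O F σ g h x t).f.length ≤ t ∧
      ∀ i ∈ (run O F σ g h x t).o, i < (run O F σ g h x t).a.length := by
  induction t with
  | zero => simp [run]
  | succ t ih =>
    obtain ⟨i1, i2, i3, i4⟩ := ih
    obtain ⟨-, -, -, m4, m5, m6, m7, m8⟩ := step_mono (O := O) (F := F) (σ := σ) (g := g) (h := h)
      (x := x) (run O F σ g h x t)
    rw [run_succ]
    refine ⟨by omega, by omega, by omega, fun i hi => ?_⟩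
    rcases m8 i hi with h1 | ⟨h1, h2⟩
    · exact (i4 i h1).trans_le m4
    · omega

/-- the wrong predictions are recorded -/
theorem pos_iff {s t : ℕ} (hst : s < t) {q : List Bool}
    (hq : g (pr x (run O F σ g h x s).a) = false :: true :: q) (hF : F q = none) :
    (run O F σ g h x s).a.length ∈ (run O F σ g h x t).o ↔
      σ (run O F σ g h x s).a q ≠ prd h x (run O F σ g h x s).a := by
  have e : run O F σ g h x (s + 1) = ⟨(run O F σ g h x s).a ++ [σ (run O F σ g h x s).a q],
        if σ (run O F σ g h x s).a q = prd h x (run O F σ g h x s).a then (run O F σ g h x s).o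
        else (run O F σ g h x s).o ++ [(run O F σ g h x s).a.length],
        (run O F σ g h x s).s ++ [q], (run O F σ g h x s).f⟩ := by
    rw [run_succ]
    unfold stepR
    simp [hq, hF]
  obtain ⟨m1, -, -, -, m5⟩ := run_mono (O := O) (F := F) (σ := σ) (g := g) (h := h) (x := x)
    (Nat.succ_le_of_lt hst)
  rw [Nat.succ_eq_add_one] at m1 m5
  constructor
  · intro hmem heq
    have h1 := m5 _ hmem (by rw [e]; simp)
    rw [e] at h1
    simp only [heq, if_true] at h1
    exact absurd ((run_len s).2.2.2 _ h1) (lt_irrefl _)
  · intro hne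
    refine m1.subset ?_
    rw [e]
    simp [hne]

/-- the word of a set of positions -/
def word (h : List Bool → List Bool) (x : List Bool) {κ t : ℕ} (b : Fin κ → Fin (t + 1)) :
    List Bool → List Bool → Bool := fun a _ =>
  if ∃ j, (b j : ℕ) = a.length then !prd h x a else prd h x a

/-- every short list of positions is the range of a word -/
theorem exists_pos {κ t : ℕ} (o : List ℕ) (ho : o.length ≤ κ) (hlt : ∀ i ∈ o, i < t) :
    ∃ b : Fin κ → Fin (t + 1), ∀ i, i < t → ((∃ j, (b j : ℕ) = i) ↔ i ∈ o) := by
  refine ⟨fun j => if hj : (j : ℕ) < o.length then ⟨o[(j : ℕ)], ?_⟩ else ⟨t, Nat.lt_succ_self t⟩,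
    fun i hi => ⟨?_, fun hio => ?_⟩⟩
  · exact (hlt _ (List.getElem_mem hj)).trans (Nat.lt_succ_self t)
  · rintro ⟨j, hj⟩
    by_cases hlt' : (j : ℕ) < o.length
    · simp only [dif_pos hlt'] at hj
      rw [← hj]
      exact List.getElem_mem hlt'
    · simp only [dif_neg hlt'] at hj
      omega
  · obtain ⟨n, hn, rfl⟩ := List.mem_iff_getElem.1 hio
    refine ⟨⟨n, hn.trans_le ho⟩, ?_⟩
    simp only [dif_pos hn]

/-- one side of the comparison -/
theorem step_side {O O' T T' : Oracle} {F : List Bool → Option Bool}
    {σ : List Bool → List Bool → Bool} {s : ℕ}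
    (ha : (run O' F (fun _ q => T' q) g h x s).a = answers (join O T) g x s)
    (hw : run O F σ g h x s = run O' F (fun _ q => T' q) g h x s)
    (hS : ∀ q, g (pr x (answers (join O T) g x s)) = false :: true :: q →
      T' q = T q ∧ ∀ v, F q = some v → T q = v)
    (hO : ∀ q, g (pr x (answers (join O T) g x s)) = false :: false :: q → O' q = O q)
    (hσ : ∀ q, g (pr x (answers (join O T) g x s)) = false :: true :: q → F q = none →
      σ (answers (join O T) g x s) q = T q) :
    (run O' F (fun _ q => T' q) g h x (s + 1)).a = answers (join O T) g x (s + 1) ∧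
      run O F σ g h x (s + 1) = run O' F (fun _ q => T' q) g h x (s + 1) := by
  rw [run_succ, run_succ, hw, answers_succ]
  unfold stepR
  rw [ha]
  rcases hv : g (pr x (answers (join O T) g x s)) with _ | ⟨_ | _, _ | ⟨_ | _, q⟩⟩
  · exact ⟨ha, rfl⟩
  · exact ⟨by simp [join], rfl⟩
  · have := hO q hv
    simp [join, this]
  · obtain ⟨h1, h2⟩ := hS q hv
    cases hF : F q with
    | some v =>
      have := h2 v hF
      simp [hF, join, this]
    | none =>
      have := hσ q hv hF
      simp [hF, join, this, h1]
  · exact ⟨ha, rfl⟩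
  · exact ⟨ha, rfl⟩
  · exact ⟨ha, rfl⟩

/-- what is asked in the next step is recorded -/
theorem mem_s {s t : ℕ} (hst : s < t) {q : List Bool}
    (hq : g (pr x (run O F σ g h x s).a) = false :: true :: q) : q ∈ (run O F σ g h x t).s := by
  refine (run_mono (Nat.succ_le_of_lt hst)).2.1.subset ?_
  rw [Nat.succ_eq_add_one, run_succ]
  unfold stepR
  rw [hq]
  dsimp only
  cases hF : F q with
  | some v => simp
  | none => simp

theorem mem_f {s t : ℕ} (hst : s < t) {q : List Bool}
    (hq : g (pr x (run O F σ g h x s).a) = false :: false :: q) : q ∈ (run O F σ g h x t).f := by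
  refine (run_mono (Nat.succ_le_of_lt hst)).2.2.1.subset ?_
  rw [Nat.succ_eq_add_one, run_succ]
  unfold stepR
  rw [hq]
  simp

end

/-- **The comparison of two runs.** -/
theorem two_runs (O : Oracle) (κ : ℕ) (g h : List Bool → List Bool) (x : List Bool) (t : ℕ) :
    ∃ (A B : (List Bool → Option Bool) → Finset (List Bool)),
      (∀ F, (A F).card ≤ (t + 1) ^ κ * t ∧ (B F).card ≤ (t + 1) ^ κ * t) ∧
      ∀ (F₁ F₂ : List Bool → Option Bool) (T : Oracle),
        (∀ q ∈ B F₁, q ∈ B F₂ → (∀ v, F₁ q = some v → T q = v) ∧ ∀ v, F₂ q = some v → T q = v) →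
        ∀ (O₁ O₂ T₁ T₂ : Oracle), (∀ q ∈ A F₁, q ∈ A F₂ → O₁ q = O q ∧ O₂ q = O q) →
          (∀ q ∈ B F₁, q ∈ B F₂ → T₁ q = T q ∧ T₂ q = T q) →
          (run O₁ F₁ (fun _ q => T₁ q) g h x t).o.length ≤ κ →
          (run O₂ F₂ (fun _ q => T₂ q) g h x t).o.length ≤ κ →
            (run O₁ F₁ (fun _ q => T₁ q) g h x t).a = (run O₂ F₂ (fun _ q => T₂ q) g h x t).a := by
  classical
  refine ⟨fun F => (Finset.univ : Finset (Fin κ → Fin (t + 1))).biUnion fun b =>
      (run O F (word h x b) g h x t).f.toFinset,
    fun F => (Finset.univ : Finset (Fin κ → Fin (t + 1))).biUnion fun b =>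
      (run O F (word h x b) g h x t).s.toFinset, fun F => ⟨?_, ?_⟩, ?_⟩
  · refine (Finset.card_biUnion_le_card_mul _ _ t fun b _ => ?_).trans
      (Nat.mul_le_mul_right _ (by simp))
    exact (List.toFinset_card_le _).trans (run_len t).2.2.1
  · refine (Finset.card_biUnion_le_card_mul _ _ t fun b _ => ?_).trans
      (Nat.mul_le_mul_right _ (by simp))
    exact (List.toFinset_card_le _).trans (run_len t).2.1
  · intro F₁ F₂ T hT O₁ O₂ T₁ T₂ hO hS h1 h2
    set R₁ := fun s => run O₁ F₁ (fun _ q => T₁ q) g h x s with hR₁
    set R₂ := fun s => run O₂ F₂ (fun _ q => T₂ q) g h x s with hR₂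
    obtain ⟨b₁, hb₁⟩ := exists_pos (t := t) (R₁ t).o h1 fun i hi =>
      ((run_len t).2.2.2 i hi).trans_le (run_len t).1
    obtain ⟨b₂, hb₂⟩ := exists_pos (t := t) (R₂ t).o h2 fun i hi =>
      ((run_len t).2.2.2 i hi).trans_le (run_len t).1
    have key : ∀ s, s ≤ t → ((R₁ s).a = answers (join O T) g x s ∧
        run O F₁ (word h x b₁) g h x s = R₁ s) ∧ (R₂ s).a = answers (join O T) g x s ∧
        run O F₂ (word h x b₂) g h x s = R₂ s := by
      intro s
      induction s with
      | zero => intro _; exact ⟨⟨rfl, rfl⟩, rfl, rfl⟩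
      | succ s ih =>
        intro hs
        obtain ⟨⟨a1, w1⟩, a2, w2⟩ := ih (by omega)
        have hst : s < t := by omega
        -- the asked questions
        have mS : ∀ q, g (pr x (answers (join O T) g x s)) = false :: true :: q →
            q ∈ ((Finset.univ : Finset (Fin κ → Fin (t + 1))).biUnion fun b =>
              (run O F₁ (word h x b) g h x t).s.toFinset) ∧
            q ∈ ((Finset.univ : Finset (Fin κ → Fin (t + 1))).biUnion fun b =>
              (run O F₂ (word h x b) g h x t).s.toFinset) := by
          intro q hq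
          refine ⟨Finset.mem_biUnion.2 ⟨b₁, Finset.mem_univ _, List.mem_toFinset.2
            (mem_s hst ?_)⟩, Finset.mem_biUnion.2 ⟨b₂, Finset.mem_univ _, List.mem_toFinset.2
            (mem_s hst ?_)⟩⟩
          · rw [w1, a1, hq]
          · rw [w2, a2, hq]
        have mF : ∀ q, g (pr x (answers (join O T) g x s)) = false :: false :: q →
            q ∈ ((Finset.univ : Finset (Fin κ → Fin (t + 1))).biUnion fun b =>
              (run O F₁ (word h x b) g h x t).f.toFinset) ∧
            q ∈ ((Finset.univ : Finset (Fin κ → Fin (t + 1))).biUnion fun b =>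
              (run O F₂ (word h x b) g h x t).f.toFinset) := by
          intro q hq
          refine ⟨Finset.mem_biUnion.2 ⟨b₁, Finset.mem_univ _, List.mem_toFinset.2
            (mem_f hst ?_)⟩, Finset.mem_biUnion.2 ⟨b₂, Finset.mem_univ _, List.mem_toFinset.2
            (mem_f hst ?_)⟩⟩
          · rw [w1, a1, hq]
          · rw [w2, a2, hq]
        constructor
        · refine step_side a1 w1 (fun q hq => ?_) (fun q hq => ?_) fun q hq hF => ?_
          · have hm := mS q hq
            exact ⟨(hS q hm.1 hm.2).1, (hT q hm.1 hm.2).1⟩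
          · have hm := mF q hq
            exact (hO q hm.1 hm.2).1
          · have hm := mS q hq
            have e := (hS q hm.1 hm.2).1
            have hp := pos_iff (O := O₁) (F := F₁) (σ := fun _ q => T₁ q) (g := g) (h := h)
              (x := x) hst (q := q) (by rw [← hq]; exact congrArg g (congrArg (pr x) a1)) hF
            have hl : (R₁ s).a.length < t := ((run_len s).1).trans_lt hst
            have hb := hb₁ _ hl
            unfold word
            rw [← a1]
            by_cases hc : T₁ q = prd h x (R₁ s).a
            · rw [if_neg (by rw [hb]; exact fun hh => hp.1 hh hc), ← e, hc]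
            · rw [if_pos (by rw [hb]; exact hp.2 hc), ← e]
              revert hc
              cases T₁ q <;> cases prd h x (R₁ s).a <;> simp
        · refine step_side a2 w2 (fun q hq => ?_) (fun q hq => ?_) fun q hq hF => ?_
          · have hm := mS q hq
            exact ⟨(hS q hm.1 hm.2).2, (hT q hm.1 hm.2).2⟩
          · have hm := mF q hq
            exact (hO q hm.1 hm.2).2
          · have hm := mS q hq
            have e := (hS q hm.1 hm.2).2
            have hp := pos_iff (O := O₂) (F := F₂) (σ := fun _ q => T₂ q) (g := g) (h := h)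
              (x := x) hst (q := q) (by rw [← hq]; exact congrArg g (congrArg (pr x) a2)) hF
            have hl : (R₂ s).a.length < t := ((run_len s).1).trans_lt hst
            have hb := hb₂ _ hl
            unfold word
            rw [← a2]
            by_cases hc : T₂ q = prd h x (R₂ s).a
            · rw [if_neg (by rw [hb]; exact fun hh => hp.1 hh hc), ← e, hc]
            · rw [if_pos (by rw [hb]; exact hp.2 hc), ← e]
              revert hc
              cases T₂ q <;> cases prd h x (R₂ s).a <;> simp
    have hk := key t le_rfl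
    exact hk.1.1.trans hk.2.1.symm

/-- the run depends on finitely many answers of the second oracle -/
theorem run_fin {O : Oracle} {F : List Bool → Option Bool} {S S' : Oracle}
    {g h : List Bool → List Bool} {x : List Bool} {t : ℕ}
    (hS : ∀ q ∈ (run O F (fun _ q => S q) g h x t).s, S' q = S q) :
    ∀ s, s ≤ t → run O F (fun _ q => S' q) g h x s = run O F (fun _ q => S q) g h x s := by
  intro s
  induction s with
  | zero => intro _; rfl
  | succ s ih =>
    intro hs
    have h1 := ih (by omega)
    rw [run_succ, run_succ, h1]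
    unfold stepR
    rcases hv : g (pr x (run O F (fun _ q => S q) g h x s).a) with _ | ⟨_ | _, _ | ⟨_ | _, q⟩⟩
    · rfl
    · rfl
    · rfl
    · have h2 := hS q (mem_s (by omega) hv)
      simp only [h2]
    · rfl
    · rfl
    · rfl

/-- more forced answers -/
theorem run_ins {O O' : Oracle} {F F' : List Bool → Option Bool} {S S' : Oracle}
    {g h : List Bool → List Bool} {D : ℕ} (hg : ∀ y, (g y).length ≤ poly D y.length)
    {x : List Bool} {t : ℕ}
    (hyp : ∀ q : List Bool, q.length ≤ poly D (2 * x.length + t + 1) → O' q = O q ∧ S' q = S q ∧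
      (F' q = none → F q = none) ∧ (∀ v, F q = some v → S q = v) ∧
        ∀ v, F' q = some v → S q = v) :
    ∀ s, s ≤ t → (run O' F' (fun _ q => S' q) g h x s).a = (run O F (fun _ q => S q) g h x s).a ∧
      (run O' F' (fun _ q => S' q) g h x s).o.length ≤
        (run O F (fun _ q => S q) g h x s).o.length := by
  intro s
  induction s with
  | zero => intro _; exact ⟨rfl, le_rfl⟩
  | succ s ih =>
    intro hs
    obtain ⟨h1, h2⟩ := ih (by omega)
    have hl := (run_len (O := O) (F := F) (σ := fun _ q => S q) (g := g) (h := h) (x := x) s).1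
    have hb := hg (pr x (run O F (fun _ q => S q) g h x s).a)
    rw [pr_length] at hb
    have hb2 : (g (pr x (run O F (fun _ q => S q) g h x s).a)).length ≤
        poly D (2 * x.length + t + 1) := hb.trans (Nat.add_le_add_right (Nat.pow_le_pow_left (by omega) D) D)
    rw [run_succ, run_succ]
    unfold stepR
    rw [h1]
    rcases hv : g (pr x (run O F (fun _ q => S q) g h x s).a) with _ | ⟨_ | _, _ | ⟨_ | _, q⟩⟩
    · exact ⟨h1, h2⟩
    · exact ⟨rfl, h2⟩
    · rw [hv] at hb2
      simp only [List.length_cons] at hb2
      have h3 := (hyp q (by omega)).1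
      exact ⟨by simp [h3], h2⟩
    · rw [hv] at hb2
      simp only [List.length_cons] at hb2
      obtain ⟨-, g2, g3, g4, g5⟩ := hyp q (by omega)
      dsimp only
      cases hF : F q with
      | some v =>
        cases hF' : F' q with
        | some v' =>
          have e1 := g4 v hF
          have e2 := g5 v' hF'
          dsimp only
          exact ⟨by rw [← e1, ← e2], h2⟩
        | none =>
          rw [g3 hF'] at hF
          exact absurd hF (by simp)
      | none =>
        cases hF' : F' q with
        | some v' =>
          have e2 := g5 v' hF'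
          dsimp only
          refine ⟨by rw [← e2], h2.trans ?_⟩
          split_ifs
          · exact le_rfl
          · simp
        | none =>
          simp only [g2, true_and]
          split_ifs
          · exact h2
          · simpa using h2
    · exact ⟨h1, h2⟩
    · exact ⟨h1, h2⟩
    · exact ⟨h1, h2⟩

theorem surprises_succ (O : Oracle) (D : Set (List Bool)) (g h : List Bool → List Bool)
    (x : List Bool) (t : ℕ) : surprises O D g h x (t + 1) =
      match g (pr x (answers O g x t)) with
      | false :: true :: q =>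
        open Classical in if q ∉ D ∧ O (true :: q) ≠
            decide (h (pr x (answers O g x t)) = [true]) then
          surprises O D g h x t + 1
        else surprises O D g h x t
      | _ => surprises O D g h x t := rfl

/-- the run and the true run -/
theorem run_eq (O S : Oracle) (F : List Bool → Option Bool) (g h : List Bool → List Bool)
    (x : List Bool) (hF : ∀ q v, F q = some v → S q = v) (t : ℕ) :
    (run O F (fun _ q => S q) g h x t).a = answers (join O S) g x t ∧
      (run O F (fun _ q => S q) g h x t).o.length =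
        surprises (join O S) {q | F q ≠ none} g h x t := by
  induction t with
  | zero => exact ⟨rfl, rfl⟩
  | succ t ih =>
    obtain ⟨h1, h2⟩ := ih
    rw [run_succ, surprises_succ, answers_succ]
    unfold stepR
    rw [h1]
    rcases hv : g (pr x (answers (join O S) g x t)) with _ | ⟨_ | _, _ | ⟨_ | _, q⟩⟩
    · exact ⟨h1, h2⟩
    · exact ⟨rfl, h2⟩
    · exact ⟨rfl, h2⟩
    · cases hF' : F q with
      | some v =>
        have := hF q v hF'
        simp [hF', join, this, h2]
      | none =>
        by_cases hc : S q = prd h x (answers (join O S) g x t)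
        · have hc' : S q = decide (h (pr x (answers (join O S) g x t)) = [true]) := hc
          simp [hF', join, h2, prd, hc']
        · have hc' : ¬ S q = decide (h (pr x (answers (join O S) g x t)) = [true]) := hc
          simp [hF', join, h2, prd, hc']
    · exact ⟨h1, h2⟩
    · exact ⟨h1, h2⟩
    · exact ⟨h1, h2⟩

end Pool.Agent.DNP.RT
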