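import Pool.Agent.Lib.MP_b9add9_lc.Events
import Pool.Agent.Lib.MP_b9add9_lc.RT.Core
import Pool.Agent.Lib.MP_b9add9_lc.RT.Run

/-!
# The events of an epoch and their conditional probabilities
-/

set_option linter.unusedSectionVars false

namespace Pool.Agent.DNP.RT

open ESY MeasureTheory

/-- A reduction: with the oracle, the forced answers and a separator it gives an answer, or
none. -/
abbrev Red : Type := Oracle → (List Bool → Option Bool) → Oracle → List Bool → Option Bool

/-- locality of a reduction -/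
structure Loc (V : Red) (C B : ℕ → ℕ) : Prop where
  two : ∀ (O : Oracle) (x : List Bool),
    ∃ (F G : (List Bool → Option Bool) → Finset (List Bool)),
      (∀ s, (F s).card ≤ C x.length ∧ (G s).card ≤ C x.length) ∧
      ∀ (s₁ s₂ : List Bool → Option Bool) (T : Oracle),
        (∀ q ∈ G s₁, q ∈ G s₂ → (∀ v, s₁ q = some v → T q = v) ∧ ∀ v, s₂ q = some v → T q = v) →
        ∀ (O₁ O₂ T₁ T₂ : Oracle), (∀ q ∈ F s₁, q ∈ F s₂ → O₁ q = O q ∧ O₂ q = O q) →
          (∀ q ∈ G s₁, q ∈ G s₂ → T₁ q = T q ∧ T₂ q = T q) →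
            V O₁ s₁ T₁ x = none ∨ V O₂ s₂ T₂ x = none ∨ V O₁ s₁ T₁ x = V O₂ s₂ T₂ x
  fin : ∀ (O : Oracle) (s : List Bool → Option Bool) (S : Oracle) (x : List Bool),
    ∃ H : Finset (List Bool), ∀ S' : Oracle, (∀ q ∈ H, S' q = S q) → V O s S' x = V O s S x
  ins : ∀ (O O' : Oracle) (s s' : List Bool → Option Bool) (S S' : Oracle) (x : List Bool),
    (∀ q : List Bool, q.length ≤ B x.length → O' q = O q ∧ S' q = S q ∧
      (s' q = none → s q = none) ∧ (∀ v, s q = some v → S q = v) ∧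
        ∀ v, s' q = some v → S q = v) → ∀ a, V O s S x = some a → V O' s' S' x = some a

open Classical in
/-- the answers forced by a pair -/
noncomputable def forced (A B : List Bool → Prop) (q : List Bool) : Option Bool :=
  if A q then some true else if B q then some false else none

/-- all bits of the block are on -/
def On (R : Oracle) (e : ℕ) (s : Bool) (n k z : ℕ) (y : List Bool) : Prop :=
  ∀ i < n ^ e + 2 * k + 4, R (blk s z y i) = true

/-- the two sides of the adversary pair, from epoch `N` on -/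
def Adv (X : Oracle) (U : Code) (e : ℕ) (s : Bool) (N : ℕ) (R : Oracle) : Set (List Bool) :=
  {x | ∃ j z, N ≤ j ∧ z < 4 ^ KK X U R j ∧ x = List.replicate (ep j + z) true ∧
    ∃ y : List Bool, y.length = ep j ^ e ∧ On R e s (ep j) (KK X U R j) z y}

/-- the blocks fit -/
def Big (e n : ℕ) : Prop := 2 * n ^ e + 4 * n + 8 ≤ mm n

/-- the adversary pair intersects at epoch `j` -/
def E2 (X : Oracle) (U : Code) (e j : ℕ) : Set Oracle :=
  {R | Big e (ep j) ∧ ∃ z < 4 ^ KK X U R j, ∃ y y' : List Bool, y.length = ep j ^ e ∧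
    y'.length = ep j ^ e ∧ On R e true (ep j) (KK X U R j) z y ∧
      On R e false (ep j) (KK X U R j) z y'}

/-- the first set, changed on two finite sets -/
def SA (X : Oracle) (U : Code) (P1 P0 : Finset (List Bool)) (j : ℕ) (R : Oracle)
    (q : List Bool) : Prop :=
  q.length ≤ LL (ep j) ∧ (q ∈ P1 ∨ (q ∉ P0 ∧ Acc U.ga U.ca (mm (ep j)) (join X R) q))

/-- the second set, changed on two finite sets -/
def SB (X : Oracle) (U : Code) (P1 P0 : Finset (List Bool)) (j : ℕ) (R : Oracle)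
    (q : List Bool) : Prop :=
  q.length ≤ LL (ep j) ∧ (q ∈ P0 ∨ (q ∉ P1 ∧ Acc U.gb U.cb (mm (ep j)) (join X R) q))

/-- the reduction `V` fails at epoch `j`, for some separator -/
def E3 (X : Oracle) (U : Code) (V : Red) (e : ℕ) (P1 P0 : Finset (List Bool)) (j : ℕ) :
    Set Oracle :=
  {R | Big e (ep j) ∧ ∃ z < 4 ^ KK X U R j, ∃ y : List Bool, y.length = ep j ^ e ∧
    ∃ S : Oracle, (∀ q, SA X U P1 P0 j R q → S q = true) ∧
      (∀ q, SB X U P1 P0 j R q → S q = false) ∧
    ((On R e true (ep j) (KK X U R j) z y ∧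
      V (trunc (mm (ep j)) (join X R)) (forced (SA X U P1 P0 j R) (SB X U P1 P0 j R)) S
        (List.replicate (ep j + z) true) ≠ some true) ∨
    (On R e false (ep j) (KK X U R j) z y ∧
      V (trunc (mm (ep j)) (join X R)) (forced (SA X U P1 P0 j R) (SB X U P1 P0 j R)) S
        (List.replicate (ep j + z) true) ≠ some false))}

theorem blk_mid {e j k z : ℕ} (s : Bool) (y : List Bool) (i : ℕ) (he : 1 ≤ e)
    (hb : Big e (ep j)) (hk : 4 * 4 ^ k ≤ ep j)
    (hz : z < 4 ^ k) (hy : y.length = ep j ^ e) (hi : i < ep j ^ e + 2 * k + 4) :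
    ep j ≤ (blk s z y i).length ∧ (blk s z y i).length < mm (ep j) := by
  rw [length_blk, hy]
  have h0 : ep j ≤ ep j ^ e := Nat.le_self_pow (by omega) _
  unfold Big at hb
  have h1 : k < 4 ^ k := Nat.lt_pow_self (by norm_num)
  omega

theorem On_congr {R R' : Oracle} {e j k z : ℕ} (s : Bool) {y : List Bool} (he : 1 ≤ e)
    (hb : Big e (ep j)) (h : ∀ y : List Bool, y.length < mm (ep j) → R y = R' y)
    (hk : 4 * 4 ^ k ≤ ep j) (hz : z < 4 ^ k) (hy : y.length = ep j ^ e) :
    On R e s (ep j) k z y ↔ On R' e s (ep j) k z y := by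
  unfold On
  refine forall_congr' fun i => forall_congr' fun hi => ?_
  rw [h _ (blk_mid s y i he hb hk hz hy hi).2]

theorem dep_E2 (X : Oracle) (U : Code) {e : ℕ} (he : 1 ≤ e) (j : ℕ) :
    Dep (mm (ep j)) (E2 X U e j) := by
  intro R R' h
  have hK : KK X U R j = KK X U R' j := KK_congr j fun y hy => h y (hy.trans (lt_mm _))
  have hk := pow_KK_le X U R' j
  unfold E2
  simp only [Set.mem_setOf_eq, hK]
  refine and_congr_right fun hb => exists_congr fun z => and_congr_right fun hz =>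
    exists_congr fun y =>
    exists_congr fun y' => and_congr_right fun hy => and_congr_right fun hy' => ?_
  rw [On_congr true he hb h hk hz hy, On_congr false he hb h hk hz hy']

theorem SA_congr {X : Oracle} {U : Code} {P1 P0 : Finset (List Bool)} {j : ℕ} {R R' : Oracle}
    (h : ∀ y : List Bool, y.length < mm (ep j) → R y = R' y) (q : List Bool) :
    SA X U P1 P0 j R q ↔ SA X U P1 P0 j R' q := by
  unfold SA
  rw [Acc_congr (join_congr h)]

theorem SB_congr {X : Oracle} {U : Code} {P1 P0 : Finset (List Bool)} {j : ℕ} {R R' : Oracle}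
    (h : ∀ y : List Bool, y.length < mm (ep j) → R y = R' y) (q : List Bool) :
    SB X U P1 P0 j R q ↔ SB X U P1 P0 j R' q := by
  unfold SB
  rw [Acc_congr (join_congr h)]

theorem dep_E3 (X : Oracle) (U : Code) (V : Red) {e : ℕ} (he : 1 ≤ e)
    (P1 P0 : Finset (List Bool)) (j : ℕ) : Dep (mm (ep j)) (E3 X U V e P1 P0 j) := by
  intro R R' h
  have hK : KK X U R j = KK X U R' j := KK_congr j fun y hy => h y (hy.trans (lt_mm _))
  have hk := pow_KK_le X U R' j
  have hA : SA X U P1 P0 j R = SA X U P1 P0 j R' := funext fun q => propext (SA_congr h q)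
  have hB : SB X U P1 P0 j R = SB X U P1 P0 j R' := funext fun q => propext (SB_congr h q)
  unfold E3
  simp only [Set.mem_setOf_eq, hK, hA, hB, trunc_congr (join_congr h)]
  refine and_congr_right fun hb => exists_congr fun z => and_congr_right fun hz =>
    exists_congr fun y => and_congr_right fun hy => ?_
  rw [On_congr true he hb h hk hz hy, On_congr false he hb h hk hz hy]

/-! ### blocks as positions -/

/-- the positions of the blocks of epoch `j` -/
def bb (e j k : ℕ) (he : 1 ≤ e) (hb : Big e (ep j)) (hk : 4 * 4 ^ k ≤ ep j) :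
    Bool × _root_.Fin (4 ^ k) × List.Vector Bool (ep j ^ e) →
      _root_.Fin (ep j ^ e + 2 * k + 4) → Mid (ep j) (mm (ep j)) :=
  fun p i => ⟨blk p.1 p.2.1 p.2.2.1 i, blk_mid p.1 p.2.2.1 i he hb hk p.2.1.2 p.2.2.2 i.2⟩

theorem bb_inj (e j k : ℕ) (he : 1 ≤ e) (hb : Big e (ep j)) (hk : 4 * 4 ^ k ≤ ep j) :
    Fin.Inj (bb e j k he hb hk) := by
  rintro ⟨s, z, y⟩ ⟨s', z', y'⟩ i i' h
  have h1 : blk s z y.1 i = blk s' z' y'.1 i' := congrArg Subtype.val h
  obtain ⟨rfl, h2, h3, h4⟩ := blk_inj (y.2.trans y'.2.symm) h1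
  have e1 : z = z' := _root_.Fin.ext h2
  have e2 : y = y' := Subtype.ext h3
  subst e1
  subst e2
  exact ⟨rfl, _root_.Fin.ext h4⟩

theorem wit_iff (e j k : ℕ) (he : 1 ≤ e) (hb : Big e (ep j)) (hk : 4 * 4 ^ k ≤ ep j) (R : Oracle)
    (ω : Mid (ep j) (mm (ep j)) → Bool) (s : Bool) (z : _root_.Fin (4 ^ k))
    (y : List.Vector Bool (ep j ^ e)) :
    Fin.Wit (bb e j k he hb hk) ω (s, z, y) ↔
      On (glue (ep j) (mm (ep j)) R ω) e s (ep j) k z y.1 := by
  unfold Fin.Wit On
  constructor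
  · intro h i hi
    have h1 := h ⟨i, hi⟩
    unfold glue
    have h2 := blk_mid s y.1 i he hb hk z.2 y.2 hi
    rw [dif_pos h2]
    exact h1
  · intro h i
    have h1 := h i i.2
    unfold glue at h1
    have h2 := blk_mid s y.1 i he hb hk z.2 y.2 i.2
    rw [dif_pos h2] at h1
    exact h1

/-- conditional probability of an intersection of the adversary pair -/
theorem cp_E2 (X : Oracle) (U : Code) (R : Oracle) {e : ℕ} (he : 1 ≤ e) (j : ℕ) :
    cp (ep j) (mm (ep j)) (E2 X U e j) R ≤ 1 / (256 * 4 ^ KK X U R j) := by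
  classical
  by_cases hb : Big e (ep j)
  swap
  · have h0 : Fin.cnt (fun ω : Mid (ep j) (mm (ep j)) → Bool =>
        glue (ep j) (mm (ep j)) R ω ∈ E2 X U e j) = 0 := Fin.cnt_false fun ω hω => hb hω.1
    unfold cp
    rw [h0]
    simp
  set k := KK X U R j with hkdef
  have hk : 4 * 4 ^ k ≤ ep j := pow_KK_le X U R j
  set n := ep j with hn
  set L := mm n with hL
  set m := n ^ e with hm
  let Tr := _root_.Fin (4 ^ k) × List.Vector Bool m × List.Vector Bool m
  let R2 : Tr → (Mid n L → Bool) → Prop := fun p ω =>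
    Fin.Wit (bb e j k he hb hk) ω (true, p.1, p.2.1) ∧
      Fin.Wit (bb e j k he hb hk) ω (false, p.1, p.2.2)
  have h1 : Fin.cnt (fun ω : Mid n L → Bool => glue n L R ω ∈ E2 X U e j) ≤
      Fin.cnt (fun ω : Mid n L → Bool => ∃ p ∈ (Finset.univ : Finset Tr), R2 p ω) := by
    refine Fin.cnt_mono fun ω hω => ?_
    obtain ⟨-, z, hz, y, y', hy, hy', ho, ho'⟩ := hω
    rw [KK_glue] at hz ho ho'
    refine ⟨(⟨z, hz⟩, ⟨y, hy⟩, ⟨y', hy'⟩), Finset.mem_univ _, ?_, ?_⟩
    · exact (wit_iff e j k he hb hk R ω true ⟨z, hz⟩ ⟨y, hy⟩).2 ho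
    · exact (wit_iff e j k he hb hk R ω false ⟨z, hz⟩ ⟨y', hy'⟩).2 ho'
  have h2 : ∀ p : Tr, (Fin.cnt (R2 p) : ℝ) ≤
      Nat.card (Mid n L → Bool) / (2 ^ (m + 2 * k + 4)) ^ 2 := by
    intro p
    let b2 : Unit → (_root_.Fin (m + 2 * k + 4) ⊕ _root_.Fin (m + 2 * k + 4)) → Mid n L :=
      fun _ i => Sum.elim (bb e j k he hb hk (true, p.1, p.2.1))
        (bb e j k he hb hk (false, p.1, p.2.2)) i
    have hb2 : Fin.Inj b2 := by
      intro u u' i i' h
      refine ⟨rfl, ?_⟩
      cases i with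
      | inl i =>
        cases i' with
        | inl i' => exact congrArg Sum.inl (bb_inj e j k he hb hk _ _ _ _ h).2
        | inr i' =>
          have := (bb_inj e j k he hb hk _ _ _ _ h).1
          simp at this
      | inr i =>
        cases i' with
        | inl i' =>
          have := (bb_inj e j k he hb hk _ _ _ _ h).1
          simp at this
        | inr i' => exact congrArg Sum.inr (bb_inj e j k he hb hk _ _ _ _ h).2
    have h3 := Fin.card_wit hb2 ()
    have h4 : Fin.cnt (R2 p) ≤ Fin.cnt (fun ω => Fin.Wit b2 ω ()) := by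
      refine Fin.cnt_mono fun ω hω => ?_
      intro i
      cases i with
      | inl i => exact hω.1 i
      | inr i => exact hω.2 i
    have h5 : Nat.card (_root_.Fin (m + 2 * k + 4) ⊕ _root_.Fin (m + 2 * k + 4)) =
        (m + 2 * k + 4) * 2 := by
      rw [Nat.card_sum, Nat.card_eq_fintype_card, Fintype.card_fin]
      ring
    rw [h5] at h3
    rw [le_div_iff₀ (by positivity), ← pow_mul]
    have h6 : 2 ^ ((m + 2 * k + 4) * 2) * Fin.cnt (R2 p) ≤ Nat.card (Mid n L → Bool) :=
      (Nat.mul_le_mul_left _ h4).trans h3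
    have h7 : (2 : ℝ) ^ ((m + 2 * k + 4) * 2) * Fin.cnt (R2 p) ≤ Nat.card (Mid n L → Bool) := by
      exact_mod_cast h6
    linarith
  have h3 := Fin.cnt_exists_le (Finset.univ : Finset Tr) R2 _ fun p _ => h2 p
  have h4 : ((Finset.univ : Finset Tr).card : ℝ) = 4 ^ k * (2 ^ m * 2 ^ m) := by
    rw [Finset.card_univ, ← Nat.card_eq_fintype_card, Nat.card_prod, Nat.card_prod, card_vec,
      Nat.card_eq_fintype_card, Fintype.card_fin]
    push_cast
    ring
  rw [h4] at h3
  have h5 : (Fin.cnt (fun ω : Mid n L → Bool => glue n L R ω ∈ E2 X U e j) : ℝ) ≤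
      4 ^ k * (2 ^ m * 2 ^ m) * (Nat.card (Mid n L → Bool) / (2 ^ (m + 2 * k + 4)) ^ 2) :=
    le_trans (by exact_mod_cast h1) h3
  unfold cp
  rw [div_le_div_iff₀ (by positivity) (by positivity), ← card_cube]
  have h6 : ((2 : ℝ) ^ (m + 2 * k + 4)) ^ 2 = 256 * (4 ^ k * 4 ^ k) * (2 ^ m * 2 ^ m) := by
    have e1 : (4 : ℝ) ^ k = 2 ^ (2 * k) := by rw [pow_mul]; norm_num
    rw [e1, pow_add, pow_add]
    ring
  have h7 : (4 : ℝ) ^ k * (2 ^ m * 2 ^ m) * (Nat.card (Mid n L → Bool) /
      (2 ^ (m + 2 * k + 4)) ^ 2) * (256 * 4 ^ k) = Nat.card (Mid n L → Bool) := by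
    rw [h6]
    field_simp
  calc (Fin.cnt (fun ω : Mid n L → Bool => glue n L R ω ∈ E2 X U e j) : ℝ) * (256 * 4 ^ k) ≤
        4 ^ k * (2 ^ m * 2 ^ m) * (Nat.card (Mid n L → Bool) / (2 ^ (m + 2 * k + 4)) ^ 2) *
        (256 * 4 ^ k) := mul_le_mul_of_nonneg_right h5 (by positivity)
    _ = 1 * (Nat.card (Mid n L → Bool) : ℝ) := by rw [h7, one_mul]

/-! ### locality -/

/-- the positions asked about -/
noncomputable def posF (n L : ℕ) (F : Finset (List Bool)) : Finset (Mid n L) :=
  (Set.toFinite {i : Mid n L | (true :: i.1) ∈ F}).toFinset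

theorem card_posF (n L : ℕ) (F : Finset (List Bool)) : (posF n L F).card ≤ F.card := by
  classical
  have h1 : ((posF n L F).image fun i => true :: i.1) ⊆ F := by
    intro z hz
    obtain ⟨i, hi, rfl⟩ := Finset.mem_image.1 hz
    simpa [posF] using hi
  have h2 : ((posF n L F).image fun i => true :: i.1).card = (posF n L F).card :=
    Finset.card_image_of_injective _ fun i i' h => Subtype.ext (List.cons.inj h).2
  rw [← h2]
  exact Finset.card_le_card h1

theorem agreeF {n L : ℕ} (X R : Oracle) {ω ω' : Mid n L → Bool} {F : Finset (List Bool)}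
    (h : ∀ i ∈ posF n L F, ω' i = ω i) :
    ∀ z ∈ F, trunc L (join X (glue n L R ω')) z = trunc L (join X (glue n L R ω)) z := by
  intro z hz
  unfold trunc
  match z with
  | [] => rfl
  | false :: y => rfl
  | true :: y =>
    have : glue n L R ω' y = glue n L R ω y := by
      unfold glue
      by_cases hy : n ≤ y.length ∧ y.length < L
      · rw [dif_pos hy, dif_pos hy]
        exact h _ (by simpa [posF] using hz)
      · rw [dif_neg hy, dif_neg hy]
    simp only [join, this]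

/-- **One epoch.** If the conditional probability of an intersection is small, then the
reduction fails with conditional probability at least `1/128`. -/
theorem cp_E3 (X : Oracle) (U : Code) (R : Oracle) (j : ℕ) (V : Red) {C B : ℕ → ℕ}
    (hV : Loc V C B) {e : ℕ} (he : 1 ≤ e) (hb : Big e (ep j)) (P1 P0 : Finset (List Bool))
    (hP : ∀ q ∈ P1, q ∉ P0) (c : ℕ) (hc1 : 1 ≤ c)
    (h1 : ∀ l, ep j ≤ l → l ≤ 2 * ep j → C l ≤ c)
    (hA : poly U.ca (LL (ep j)) ≤ c) (hB : poly U.cb (LL (ep j)) ≤ c)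
    (h2 : 80 * c ^ 2 ≤ 2 ^ (ep j ^ e))
    (hC : ¬ Cond X U R (ep j) (KK X U R j)) :
    1 / 128 ≤ cp (ep j) (mm (ep j)) (E3 X U V e P1 P0 j) R := by
  classical
  set k := KK X U R j with hkdef
  have hk : 4 * 4 ^ k ≤ ep j := pow_KK_le X U R j
  set n := ep j with hn
  set L := mm n with hL
  let G : Game (Mid n L) (_root_.Fin (4 ^ k)) (List.Vector Bool (n ^ e))
      (_root_.Fin (n ^ e + 2 * k + 4)) (List Bool) :=
    { b := bb e j k he hb hk
      hb := bb_inj e j k he hb hk
      M := fun ω s S z => V (trunc L (join X (glue n L R ω))) s S (List.replicate (n + z) true)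
      A := fun ω q => SA X U P1 P0 j (glue n L R ω) q
      B := fun ω q => SB X U P1 P0 j (glue n L R ω) q
      c := c
      locM := fun ω z => by
        have hz := z.2
        obtain ⟨F, H, hFH, hloc⟩ := hV.two (trunc L (join X (glue n L R ω)))
          (List.replicate (n + z) true)
        simp only [List.length_replicate] at hFH
        have hc := h1 (n + z) (by omega) (by omega)
        refine ⟨fun s => posF n L (F s), H, fun s => ⟨(card_posF _ _ _).trans
          ((hFH s).1.trans hc), (hFH s).2.trans hc⟩, fun s₁ s₂ T hT ω₁ ω₂ T₁ T₂ hω hT' =>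
            hloc s₁ s₂ T hT _ _ T₁ T₂ (fun q hq hq' => ?_) hT'⟩
        have hq2 : q ∈ F s₁ ∩ F s₂ := Finset.mem_inter.2 ⟨hq, hq'⟩
        have hpos : ∀ i, i ∈ posF n L (F s₁ ∩ F s₂) → i ∈ posF n L (F s₁) ∧
            i ∈ posF n L (F s₂) := by
          intro i hi
          simpa [posF] using hi
        exact ⟨agreeF X R (fun i hi => (hω i (hpos i hi).1 (hpos i hi).2).1) q hq2,
          agreeF X R (fun i hi => (hω i (hpos i hi).1 (hpos i hi).2).2) q hq2⟩
      locA := fun ω q hq => by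
        obtain ⟨hq1, hq2⟩ := hq
        rcases hq2 with h | ⟨h, h'⟩
        · exact ⟨∅, by simp, fun ω' _ => ⟨hq1, Or.inl h⟩⟩
        · obtain ⟨S, hS, hS'⟩ := locAcc X R U.ga U.ca q ω h'
          exact ⟨S, (hS.trans (poly_mono' _ hq1)).trans hA,
            fun ω' h'' => ⟨hq1, Or.inr ⟨h, hS' ω' h''⟩⟩⟩
      locB := fun ω q hq => by
        obtain ⟨hq1, hq2⟩ := hq
        rcases hq2 with h | ⟨h, h'⟩
        · exact ⟨∅, by simp, fun ω' _ => ⟨hq1, Or.inl h⟩⟩
        · obtain ⟨S, hS, hS'⟩ := locAcc X R U.gb U.cb q ω h'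
          exact ⟨S, (hS.trans (poly_mono' _ hq1)).trans hB,
            fun ω' h'' => ⟨hq1, Or.inr ⟨h, hS' ω' h''⟩⟩⟩ }
  have hW : Nat.card (List.Vector Bool (n ^ e)) = 2 ^ (n ^ e) := card_vec _
  have hZ : Nat.card (_root_.Fin (4 ^ k)) = 4 ^ k := by
    rw [Nat.card_eq_fintype_card, Fintype.card_fin]
  have hJ : Nat.card (_root_.Fin (n ^ e + 2 * k + 4)) = n ^ e + 2 * k + 4 := by
    rw [Nat.card_eq_fintype_card, Fintype.card_fin]
  have hΩ : Nat.card (Mid n L → Bool) = 2 ^ Nat.card (Mid n L) := Fin.card_pow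
  have hcore := G.core hc1 (by rw [hW]; exact h2) (by
    rw [hJ, hZ, hW]
    have e1 : 4 ^ k = 2 ^ (2 * k) := by rw [pow_mul]; norm_num
    rw [e1, pow_add, pow_add]
    ring)
  rcases hcore with hF | hD
  · have h4 : Fin.cnt G.Fail ≤ Fin.cnt (fun ω : Mid n L → Bool =>
        glue n L R ω ∈ E3 X U V e P1 P0 j) := by
      refine Fin.cnt_mono fun ω hω => ?_
      obtain ⟨z, y, h⟩ := hω
      refine ⟨hb, z, ?_, y.1, y.2, ?_⟩
      · rw [KK_glue]; exact z.2
      · rw [KK_glue]
        rcases h with ⟨hw, S, ⟨hs1, hs2⟩, hf⟩ | ⟨hw, S, ⟨hs1, hs2⟩, hf⟩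
        · exact ⟨S, hs1, hs2, Or.inl ⟨(wit_iff e j k he hb hk R ω true z y).1 hw, hf⟩⟩
        · exact ⟨S, hs1, hs2, Or.inr ⟨(wit_iff e j k he hb hk R ω false z y).1 hw, hf⟩⟩
    unfold cp
    rw [div_le_div_iff₀ (by norm_num) (by positivity), one_mul]
    have h5 : 2 ^ Nat.card (Mid n L) ≤ 128 * Fin.cnt (fun ω : Mid n L → Bool =>
        glue n L R ω ∈ E3 X U V e P1 P0 j) := by
      rw [← hΩ]
      exact hF.trans (Nat.mul_le_mul_left _ h4)
    have h6 : (2 : ℝ) ^ Nat.card (Mid n L) ≤ 128 * Fin.cnt (fun ω : Mid n L → Bool =>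
        glue n L R ω ∈ E3 X U V e P1 P0 j) := by exact_mod_cast h5
    linarith
  · exfalso
    apply hC
    unfold Cond
    have h4 : Fin.cnt G.Dbl ≤ Fin.cnt (fun ω : Mid n L → Bool =>
        DD U n (join X (glue n L R ω))) := by
      refine Fin.cnt_mono fun ω hω => ?_
      obtain ⟨q, ⟨hq1, hqa⟩, ⟨-, hqb⟩⟩ := hω
      have ha : q ∉ P0 ∧ Acc U.ga U.ca (mm (ep j)) (join X (glue n L R ω)) q := by
        rcases hqa with h | h
        · rcases hqb with h' | h'
          · exact absurd h' (hP q h)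
          · exact absurd h h'.1
        · exact h
      have hb' : q ∉ P1 ∧ Acc U.gb U.cb (mm (ep j)) (join X (glue n L R ω)) q := by
        rcases hqb with h | h
        · exact absurd h ha.1
        · exact h
      exact ⟨q, hq1, ha.2, hb'.2⟩
    rw [hΩ, hZ] at hD
    have h5 : (2 : ℝ) ^ Nat.card (Mid n L) ≤ 1024 * 4 ^ k * Fin.cnt (fun ω : Mid n L → Bool =>
        DD U n (join X (glue n L R ω))) := by
      push_cast at hD
      refine hD.trans ?_
      have : (Fin.cnt G.Dbl : ℝ) ≤ Fin.cnt (fun ω : Mid n L → Bool =>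
        DD U n (join X (glue n L R ω))) := by exact_mod_cast h4
      exact mul_le_mul_of_nonneg_left this (by positivity)
    exact_mod_cast h5

end Pool.Agent.DNP.RT
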