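import Pool.Agent.Lib.MP_b9add9_lc.PTSched
import Pool.Agent.Lib.MP_b9add9_lc.RT.Events

/-!
# The adversary pair is in `NP`
-/

namespace Pool.Agent.DNP.RT

open ESY Turing Pool.Agent.PolyTime

universe u

theorem PT_powc {α : Type u} [Rep α] {f : α → ℕ} (hf : PT f) (e : ℕ) :
    PT (fun a => f a ^ e) := by
  induction e with
  | zero =>
    have : (fun a => f a ^ 0) = fun _ : α => 1 := by funext a; rw [pow_zero]
    rw [this]
    exact PT.const 1
  | succ e ih =>
    have : (fun a => f a ^ (e + 1)) = fun a => f a ^ e * f a := by funext a; rw [pow_succ]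
    rw [this]
    exact PT.mul ih hf

/-- the queries -/
def qsV (U : Code) (e : ℕ) (s : Bool) (p : List Bool) : List (List Bool) :=
  strsLE (Nat.log 2 (unp p).1.length - 1) ++
    (List.range ((st U (unp p).1.length [] (unp p).1.length).2.1 ^ e +
      2 * (unp p).1.length + 4)).map
      fun i => true :: blk s ((unp p).1.length -
        (st U (unp p).1.length [] (unp p).1.length).2.1) (unp p).2 i

/-- the check, as a function of the state -/
def chkS (N e l : ℕ) (x w ans : List Bool) (s : ℕ × ℕ × ℕ) : Bool :=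
  (decide (x = List.replicate l true) && decide (s.2.1 ≤ l)) &&
    ((decide (l - s.2.1 < cpw l (2 * s.2.2)) && decide (N ≤ s.1)) &&
    (decide (w.length = s.2.1 ^ e) && (List.range (s.2.1 ^ e + 2 * s.2.2 + 4)).all fun i =>
      decide ((ans.drop (strsLE (Nat.log 2 l - 1)).length)[i]? = some true)))

/-- the check -/
def chkV (U : Code) (e N : ℕ) (p : List Bool × List Bool) : Bool :=
  chkS N e (unp p.1).1.length (unp p.1).1 (unp p.1).2 p.2
    (st U (unp p.1).1.length (yes (unp p.1).1.length p.2) (unp p.1).1.length)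

theorem PT_qsV {U : Code} (ha : PT U.ga) (hb : PT U.gb) (e : ℕ) (s : Bool) :
    PT (qsV U e s) := by
  have h1 : PT (fun p : List Bool => unp p) := PT.unp PT.id
  have hl : PT (fun p : List Bool => (unp p).1.length) := h1.fst.length
  have hst : PT (fun p : List Bool => st U (unp p).1.length [] (unp p).1.length) :=
    PT_st ha hb hl (PT.const []) hl
  refine PT.append (PT_strsLog hl) (PT.map (g := fun p i => true :: blk s ((unp p).1.length -
        (st U (unp p).1.length [] (unp p).1.length).2.1) (unp p).2 i)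
    (PT.range (PT.add (PT.add (PT_powc hst.snd.fst e) (PT.mul (PT.const 2) hl))
      (PT.const 4))) ?_)
  have hl' : PT (fun q : List Bool × ℕ => (unp q.1).1.length) := hl.comp PT.id.fst
  have hst' : PT (fun q : List Bool × ℕ => st U (unp q.1).1.length [] (unp q.1).1.length) :=
    hst.comp PT.id.fst
  have h1' : PT (fun q : List Bool × ℕ => unp q.1) := h1.comp PT.id.fst
  exact PT.cons (PT.const true) (PT_blk (PT.sub hl' hst'.snd.fst) PT.id.snd h1'.snd)

theorem PT_chkV {U : Code} (ha : PT U.ga) (hb : PT U.gb) (e N : ℕ) : PT (chkV U e N) := by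
  have h1 : PT (fun p : List Bool × List Bool => unp p.1) :=
    (PT.unp (PT.id (α := List Bool))).comp PT.id.fst
  have hl : PT (fun p : List Bool × List Bool => (unp p.1).1.length) := h1.fst.length
  have hy : PT (fun p : List Bool × List Bool => yes (unp p.1).1.length p.2) :=
    PT_yes hl PT.id.snd
  have hst : PT (fun p : List Bool × List Bool => st U (unp p.1).1.length
      (yes (unp p.1).1.length p.2) (unp p.1).1.length) := PT_st ha hb hl hy hl
  unfold chkV chkS
  have hQ : PT (fun p : List Bool × List Bool =>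
      (strsLE (Nat.log 2 (unp p.1).1.length - 1)).length) := (PT_strsLog hl).length
  refine PT.and (PT.and (PT.eq h1.fst (PT.replicate hl (PT.const true)))
    (PT.le hst.snd.fst hl)) (PT.and (PT.and (PT.lt (PT.sub hl hst.snd.fst)
    (PT.cpw hl (PT.mul (PT.const 2) hst.snd.snd))) (PT.le (PT.const N) hst.fst))
    (PT.and (PT.natEq h1.snd.length (PT_powc hst.snd.fst e)) (PT.all (PT.range (PT.add (PT.add
      (PT_powc hst.snd.fst e) (PT.mul (PT.const 2) hst.snd.snd)) (PT.const 4))) ?_)))
  have hQ' : PT (fun q : (List Bool × List Bool) × ℕ =>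
      (strsLE (Nat.log 2 (unp q.1.1).1.length - 1)).length) := hQ.comp PT.id.fst
  exact PT.eq (PT.getElem? (PT.drop PT.id.fst.snd hQ') PT.id.snd) (PT.const (some true))

/-- the exponent -/
def cc (e : ℕ) : ℕ := 3 * e + 5 ^ e + 16

theorem length_qsV (U : Code) (e : ℕ) (s : Bool) (x w : List Bool) :
    (qsV U e s (pr x w)).length ≤ poly (cc e) x.length := by
  unfold qsV
  rw [unp_pr]
  simp only [List.length_append, List.length_map, List.length_range]
  have h1 := length_strsLE (Nat.log 2 x.length - 1)
  have h2 := (st_bound U x.length [] x.length).2.1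
  have h2' := Nat.pow_le_pow_left h2 e
  have h5e : 1 ≤ 5 ^ e := Nat.one_le_pow _ _ (by norm_num)
  generalize (st U x.length [] x.length).2.1 ^ e = P at *
  generalize x.length = l at *
  unfold poly cc
  rcases Nat.lt_or_ge l 2 with h | h
  · have h3 : Nat.log 2 l = 0 := Nat.log_eq_zero_iff.2 (Or.inl h)
    rw [h3] at h1 ⊢
    simp only [Nat.zero_sub, Nat.zero_add, pow_one] at h1 ⊢
    have h4 : (l + 4) ^ e ≤ 5 ^ e := Nat.pow_le_pow_left (by omega) e
    omega
  · have h3 : 1 ≤ Nat.log 2 l := Nat.log_pos (by norm_num) h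
    have h4 := Nat.pow_log_le_self 2 (show l ≠ 0 by omega)
    have h5 : Nat.log 2 l - 1 + 1 = Nat.log 2 l := by omega
    rw [h5] at h1
    have h6 : (l + 4) ^ e ≤ l ^ (3 * e) := by
      rw [pow_mul]
      refine Nat.pow_le_pow_left ?_ e
      have : l ^ 3 = l * l * l := by ring
      nlinarith
    have h7 : l ^ (3 * e + 5) ≤ l ^ (3 * e + 5 ^ e + 16) :=
      Nat.pow_le_pow_right (by omega) (by omega)
    have h8 : l ^ (3 * e + 5) = l ^ (3 * e) * l ^ 5 := pow_add _ _ _
    have h9 : 1 ≤ l ^ (3 * e) := Nat.one_le_pow _ _ (by omega)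
    have h10 : 16 * l ≤ l ^ 5 := by
      have : l ^ 5 = l * l ^ 4 := by ring
      rw [this, mul_comm 16]
      exact Nat.mul_le_mul_left _ (Nat.pow_le_pow_left h 4)
    have h11 : l ^ (3 * e) + l ^ 5 ≤ l ^ (3 * e) * l ^ 5 + 1 := by
      have : 1 ≤ l ^ 5 := Nat.one_le_pow _ _ (by omega)
      nlinarith
    omega

/-- **The adversary pair is in `NP`.** -/
theorem adv_inNP (X : Oracle) (U : Code) (ha : PolyTime U.ga) (hb : PolyTime U.gb) (e : ℕ)
    (s : Bool) (N : ℕ) (R : Oracle) : InNP (join X R) (Adv X U e s N R) := by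
  rw [polyTime_iff] at ha hb
  refine inNP_of_nonadaptive (PT_qsV ha hb e s) (PT_chkV ha hb e N) (cc e)
    (length_qsV U e s) fun x => ?_
  -- the check on the true answers
  have key : ∀ w, chkV U e N (pr x w, (qsV U e s (pr x w)).map (join X R)) = true ↔
      ∃ i, ep i ≤ x.length ∧ x.length < ep (i + 1) ∧ x = List.replicate x.length true ∧
        x.length - ep i < 4 ^ KK X U R i ∧ N ≤ i ∧ w.length = ep i ^ e ∧
          On R e s (ep i) (KK X U R i) (x.length - ep i) w := by
    intro w
    set l := x.length with hl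
    set Q := strsLE (Nat.log 2 l - 1) with hQ
    set n0 := (st U l [] l).2.1 with hn0
    have hq : (qsV U e s (pr x w)).map (join X R) = Q.map (join X R) ++
        (List.range (n0 ^ e + 2 * l + 4)).map (fun i => R (blk s (l - n0) w i)) := by
      unfold qsV
      rw [unp_pr]
      simp only [List.map_append, List.map_map]
      rfl
    have hT : ∀ z, z ∈ yes l ((qsV U e s (pr x w)).map (join X R)) ↔
        z.length ≤ Nat.log 2 l - 1 ∧ join X R z = true := by
      intro z
      rw [hq]
      exact mem_yes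
    obtain ⟨i, hi1, hi0, hi2⟩ := st_final (U := U) hT
    have hn : n0 = ep i := by
      rw [hn0, st_epoch U l [] (yes l ((qsV U e s (pr x w)).map (join X R))) l, hi1]
    have hchk : chkV U e N (pr x w, (qsV U e s (pr x w)).map (join X R)) =
        chkS N e l x w ((qsV U e s (pr x w)).map (join X R)) (i, ep i, KK X U R i) := by
      unfold chkV
      simp only [unp_pr]
      rw [← hl, hi1]
    rw [hchk]
    unfold chkS
    have hdrop : ((qsV U e s (pr x w)).map (join X R)).drop Q.length =
        (List.range (n0 ^ e + 2 * l + 4)).map (fun i => R (blk s (l - n0) w i)) := by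
      rw [hq]
      exact List.drop_left' (by simp)
    simp only [← hQ, hdrop, Bool.and_eq_true, decide_eq_true_iff, List.all_eq_true,
      List.mem_range]
    have h4k : (4 : ℕ) ^ KK X U R i = 2 ^ (2 * KK X U R i) := by rw [pow_mul]; norm_num
    have hlt : l - ep i < cpw l (2 * KK X U R i) ↔ l - ep i < 4 ^ KK X U R i := by
      rw [h4k]
      unfold cpw
      omega
    have hkl : KK X U R i ≤ l := by
      have := (st_bound U l (yes l ((qsV U e s (pr x w)).map (join X R))) l).2.2
      rw [hi1] at this
      exact this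
    have hOn : (∀ j < ep i ^ e + 2 * KK X U R i + 4,
        ((List.range (n0 ^ e + 2 * l + 4)).map (fun i => R (blk s (l - n0) w i)))[j]? =
          some true) ↔ On R e s (ep i) (KK X U R i) (l - ep i) w := by
      unfold On
      refine forall_congr' fun j => forall_congr' fun hj => ?_
      rw [List.getElem?_map, List.getElem?_range (by rw [hn]; omega)]
      simp only [Option.map_some, Option.some.injEq, hn]
    rw [hOn, hlt]
    constructor
    · rintro ⟨⟨h1, h2⟩, ⟨h3, h4⟩, h5, h6⟩
      exact ⟨i, h2, hi2, h1, h3, h4, h5, h6⟩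
    · rintro ⟨i', g1, g2, g3, g4, g5, g6, g7⟩
      have hle : ep i ≤ l := by
        rcases hi0 with h0 | h0
        · have h7 : ep i ≤ ep i' := ep_mono (by omega)
          omega
        · exact h0
      have he : i = i' := epoch_unique hle hi2 g1 g2
      subst he
      exact ⟨⟨g3, g1⟩, ⟨g4, g5⟩, g6, g7⟩
  constructor
  · rintro ⟨j, z, hj, hz, hx, y, hy, hon⟩
    have hxl : x.length = ep j + z := by rw [hx]; simp
    have hlt := add_lt_ep hz
    refine ⟨y, ?_, (key y).2 ⟨j, by omega, by omega, ?_, ?_, hj, hy, ?_⟩⟩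
    · rw [hy]
      have h0 : 4 ≤ ep j := four_le_ep j
      have h5e : 1 ≤ 5 ^ e := Nat.one_le_pow _ _ (by norm_num)
      have h1 : ep j ^ e ≤ x.length ^ e := Nat.pow_le_pow_left (by omega) _
      have h2 : x.length ^ e ≤ x.length ^ (cc e) := Nat.pow_le_pow_right (by omega) (by
        unfold cc
        omega)
      unfold poly
      omega
    · rw [hxl]; exact hx
    · rw [hxl]; simpa using hz
    · rw [hxl]; simpa using hon
  · rintro ⟨w, -, hw⟩
    obtain ⟨i, h1, -, h2, h3, h4, h5, h6⟩ := (key w).1 hw
    refine ⟨i, x.length - ep i, h4, h3, ?_, w, h5, h6⟩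
    rw [h2]
    simp only [List.length_replicate]
    congr 1
    omega

end Pool.Agent.DNP.RT
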