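import Pool.Agent.Lib.MP_b9add9_lc.Assembly
import Pool.Agent.Lib.MP_b9add9_lc.Countable
import Pool.Agent.Lib.MP_b9add9_lc.Meas
import Pool.Agent.Lib.MP_b9add9_lc.RT.NP

/-!
# Assembly
-/

namespace Pool.Agent.DNP.RT

open ESY MeasureTheory

theorem growth_big (e : ℕ) : ∀ᶠ n in Filter.atTop, Big e n := by
  have h : Sub (fun n => 2 * n ^ e + 4 * n + 8) :=
    sub_add (sub_add (sub_mul (sub_const 2) (sub_pow sub_id e)) (sub_mul (sub_const 4) sub_id))
      (sub_const 8)
  filter_upwards [h 1] with n hn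
  rw [pow_one] at hn
  exact hn.trans (LL_lt_mm n).le

/-- The growth of the constants of a reduction. -/
def Grow (e : ℕ) (C B : ℕ → ℕ) : Prop :=
  ∀ ca cb : ℕ, ∀ᶠ n in Filter.atTop, ∃ c : ℕ, 1 ≤ c ∧
    (∀ l, n ≤ l → l ≤ 2 * n → C l ≤ c ∧ B l ≤ LL n) ∧ poly ca (LL n) ≤ c ∧
    poly cb (LL n) ≤ c ∧ 80 * c ^ 2 ≤ 2 ^ (n ^ e)

/-- The general theorem, for countably many reductions. -/
theorem main_general {e : ℕ} (he : 1 ≤ e) {ι : Type} [Countable ι] (V : ι → Red)
    (C B : ι → ℕ → ℕ) (hV : ∀ i, Loc (V i) (C i) (B i)) (hG : ∀ i, Grow e (C i) (B i))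
    (X : Oracle) :
    ∀ᵐ R ∂coin, ∀ P Q, DisjointNPPair (join X R) P Q →
      ∃ P' Q', DisjointNPPair (join X R) P' Q' ∧ Tally P' ∧ Tally Q' ∧
        ∃ S, Separator P Q S ∧ ∀ i, ∃ x,
          (x ∈ P' ∧ V i (join X R) (forced (· ∈ P) (· ∈ Q)) S x ≠ some true) ∨
          (x ∈ Q' ∧ V i (join X R) (forced (· ∈ P) (· ∈ Q)) S x ≠ some false) := by
  classical
  have hcount := countable_polyTime
  have hmeas : ∀ E : ℕ → Set Oracle, (∀ j, Dep (mm (ep j)) (E j)) →
      ∀ᵐ R ∂coin, ((∃ᶠ j in Filter.atTop, R ∈ E j) ↔ Filter.Tendsto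
        (fun J => ∑ j ∈ Finset.range J, cp (ep j) (mm (ep j)) (E j) R)
          Filter.atTop Filter.atTop) := fun E hE =>
    measStmt ep (fun j => mm (ep j)) ep_strictMono
      (fun j => ⟨(lt_mm _).le, (mm_lt_ep j).le⟩) E hE
  have hae : ∀ᵐ R ∂coin, ∀ (a b : {g : List Bool → List Bool // PolyTime g}) (ca cb : ℕ),
      ((∃ᶠ j in Filter.atTop, R ∈ E1 X ⟨a.1, ca, b.1, cb⟩ j) ↔ Filter.Tendsto
        (fun J => ∑ j ∈ Finset.range J, cp (ep j) (mm (ep j)) (E1 X ⟨a.1, ca, b.1, cb⟩ j) R)
          Filter.atTop Filter.atTop) ∧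
      ((∃ᶠ j in Filter.atTop, R ∈ E2 X ⟨a.1, ca, b.1, cb⟩ e j) ↔ Filter.Tendsto
        (fun J => ∑ j ∈ Finset.range J, cp (ep j) (mm (ep j)) (E2 X ⟨a.1, ca, b.1, cb⟩ e j) R)
          Filter.atTop Filter.atTop) ∧
      ∀ (i : ι) (P1 P0 : Finset (List Bool)),
        ((∃ᶠ j in Filter.atTop, R ∈ E3 X ⟨a.1, ca, b.1, cb⟩ (V i) e P1 P0 j) ↔ Filter.Tendsto
        (fun J => ∑ j ∈ Finset.range J, cp (ep j) (mm (ep j))
          (E3 X ⟨a.1, ca, b.1, cb⟩ (V i) e P1 P0 j) R) Filter.atTop Filter.atTop) := by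
    refine ae_all_iff.2 fun a => ae_all_iff.2 fun b => ae_all_iff.2 fun ca =>
      ae_all_iff.2 fun cb => ?_
    filter_upwards [hmeas _ (dep_E1 X ⟨a.1, ca, b.1, cb⟩),
      hmeas _ (dep_E2 X ⟨a.1, ca, b.1, cb⟩ he),
      ae_all_iff.2 fun i : ι => ae_all_iff.2 fun P1 : Finset (List Bool) =>
        ae_all_iff.2 fun P0 : Finset (List Bool) =>
          hmeas _ (dep_E3 X ⟨a.1, ca, b.1, cb⟩ (V i) he P1 P0)]
      with R h1 h2 h3
    exact ⟨h1, h2, h3⟩
  filter_upwards [hae] with R hR
  rintro P Q ⟨⟨ga, ca, hga, hA⟩, ⟨gb, cb, hgb, hB⟩, hdisj⟩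
  obtain ⟨h1, h2, h3⟩ := hR ⟨ga, hga⟩ ⟨gb, hgb⟩ ca cb
  set U : Code := ⟨ga, ca, gb, cb⟩ with hU
  set O := join X R with hO
  obtain ⟨da, hda⟩ := hga.bound
  obtain ⟨db, hdb⟩ := hgb.bound
  have hep : Filter.Tendsto ep Filter.atTop Filter.atTop := ep_strictMono.tendsto_atTop
  -- the pair is seen correctly from some epoch on
  obtain ⟨j0, hj0⟩ := Filter.eventually_atTop.1 (hep.eventually
    ((growth_ver ca da).and ((growth_ver cb db).and (growth_big e))))
  have hAcc : ∀ j, j0 ≤ j → ∀ q : List Bool, q.length ≤ LL (ep j) →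
      (Acc ga ca (mm (ep j)) O q ↔ q ∈ P) := by
    intro j hj q hq
    obtain ⟨⟨g1, g2⟩, -⟩ := hj0 j hj
    rw [acc_iff hda g1 g2 O q hq, hA]
  have hBcc : ∀ j, j0 ≤ j → ∀ q : List Bool, q.length ≤ LL (ep j) →
      (Acc gb cb (mm (ep j)) O q ↔ q ∈ Q) := by
    intro j hj q hq
    obtain ⟨-, ⟨g1, g2⟩, -⟩ := hj0 j hj
    rw [acc_iff hdb g1 g2 O q hq, hB]
  have hE1 : ¬ ∃ᶠ j in Filter.atTop, R ∈ E1 X U j := by
    rw [Filter.not_frequently]
    refine Filter.eventually_atTop.2 ⟨j0, fun j hj hmem => ?_⟩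
    obtain ⟨q, hq, ha, hb⟩ := hmem
    exact Set.disjoint_left.1 hdisj ((hAcc j hj q hq).1 ha) ((hBcc j hj q hq).1 hb)
  have hbd1 := bdd_of_not_tendsto (fun j => cp_nonneg _ _ _ R) (fun h => hE1 (h1.2 h))
  obtain ⟨M, hMb⟩ := hbd1
  -- the parameters
  have hK : ∀ j, (1 ≤ 1024 * 4 ^ KK X U R j * cp (ep j) (mm (ep j)) (E1 X U j) R ∧
      KK X U R (j + 1) = KK X U R j) ∨ KK X U R (j + 1) = KK X U R j + 1 := by
    intro j
    by_cases hc : Cond X U R (ep j) (KK X U R j)
    · refine Or.inl ⟨(cond_iff X U R j _).1 hc, ?_⟩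
      conv_lhs => unfold KK
      rw [if_pos hc]
    · refine Or.inr ?_
      conv_lhs => unfold KK
      rw [if_neg hc]
  have hnC : ∀ j, KK X U R (j + 1) = KK X U R j + 1 → ¬ Cond X U R (ep j) (KK X U R j) := by
    intro j hj hc
    have : KK X U R (j + 1) = KK X U R j := by
      conv_lhs => unfold KK
      rw [if_pos hc]
    omega
  have hsum := sum_bound (fun j => cp_nonneg (ep j) (mm (ep j)) (E1 X U j) R) hK
  have hfreq := freq_inc (fun j => cp_nonneg (ep j) (mm (ep j)) (E1 X U j) R) hK hMb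
  -- finitely many double epochs
  have hE2 : ¬ ∃ᶠ j in Filter.atTop, R ∈ E2 X U e j := by
    rw [h2]
    refine not_tendsto_of_bdd (M := 1024 * M + 2 / (4 : ℝ) ^ KK X U R 0) fun J => ?_
    have g1 : ∑ j ∈ Finset.range J, cp (ep j) (mm (ep j)) (E2 X U e j) R ≤
        ∑ j ∈ Finset.range J, 1 / (4 : ℝ) ^ KK X U R j := by
      refine Finset.sum_le_sum fun j _ => (cp_E2 X U R he j).trans ?_
      refine one_div_le_one_div_of_le (by positivity) ?_
      have : (0 : ℝ) < 4 ^ KK X U R j := by positivity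
      linarith
    have g2 := hsum J
    have g3 := hMb J
    have g4 : (0 : ℝ) ≤ 2 / (4 : ℝ) ^ KK X U R J := by positivity
    linarith
  rw [Filter.not_frequently] at hE2
  obtain ⟨N0, hN0⟩ := Filter.eventually_atTop.1 hE2
  set N := max N0 j0 with hNdef
  have hN : ∀ j, N ≤ j → R ∉ E2 X U e j ∧ Big e (ep j) := fun j hj =>
    ⟨hN0 j ((le_max_left _ _).trans hj), (hj0 j ((le_max_right _ _).trans hj)).2.2⟩
  refine ⟨Adv X U e true N R, Adv X U e false N R, ⟨adv_inNP X U hga hgb e true N R,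
    adv_inNP X U hga hgb e false N R, ?_⟩, ?_, ?_, ?_⟩
  · -- disjointness
    refine Set.disjoint_left.2 ?_
    rintro x ⟨j, z, hj, hz, hx, y, hy, ho⟩ ⟨j', z', hj', hz', hx', y', hy', ho'⟩
    have hlen : ep j + z = ep j' + z' := by
      have := congrArg List.length (hx.symm.trans hx')
      simpa using this
    have b1 := pow_KK_le X U R j
    have b2 := pow_KK_le X U R j'
    have step : ∀ a b, a < b → 4 * 4 ^ KK X U R a ≤ ep a → ep a + 4 ^ KK X U R a < ep b := by
      intro a b hab hle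
      have e1 : ep (a + 1) ≤ ep b := ep_strictMono.monotone hab
      have e2 := mm_lt_ep a
      have e3 := LL_lt_mm (ep a)
      have e4 := four_mul_le (ep a) (four_le_ep a)
      omega
    have hjj : j = j' := by
      rcases lt_trichotomy j j' with h | h | h
      · have := step j j' h b1
        omega
      · exact h
      · have := step j' j h b2
        omega
    subst hjj
    have hzz : z = z' := by omega
    subst hzz
    exact (hN j hj).1 ⟨(hN j hj).2, z, hz, y, y', hy, hy', ho, ho'⟩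
  · rintro x ⟨j, z, -, -, rfl, -⟩
    rw [List.length_replicate]
  · rintro x ⟨j, z, -, -, rfl, -⟩
    rw [List.length_replicate]
  · by_contra hhard
    -- uniformity
    set I := forced (· ∈ P) (· ∈ Q) with hI
    let D : ι → Oracle → Prop := fun i S => ∀ x,
      (x ∈ Adv X U e true N R → V i O I S x = some true) ∧
      (x ∈ Adv X U e false N R → V i O I S x = some false)
    obtain ⟨i, S₀, F, hS₀, hD⟩ := diag P Q hdisj D (by
      intro i S hnot
      have hnot' : ∃ x, ¬ ((x ∈ Adv X U e true N R → V i O I S x = some true) ∧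
          (x ∈ Adv X U e false N R → V i O I S x = some false)) := by
        by_contra hcon
        exact hnot fun x => by_contra fun hx => hcon ⟨x, hx⟩
      obtain ⟨x, hx⟩ := hnot'
      obtain ⟨H, hloc⟩ := (hV i).fin O I S x
      refine ⟨H, fun S' hS' hDS' => hx ?_⟩
      have := hDS' x
      rwa [hloc S' hS'] at this) (by
      intro S hS
      by_contra hcon
      refine hhard ⟨S, hS, fun i => ?_⟩
      by_contra hi
      refine hcon ⟨i, fun x => ⟨fun hx => ?_, fun hx => ?_⟩⟩
      · by_contra hne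
        exact hi ⟨x, Or.inl ⟨hx, hne⟩⟩
      · by_contra hne
        exact hi ⟨x, Or.inr ⟨hx, hne⟩⟩)
    set P1 := F.filter (fun x => S₀ x = true) with hP1
    set P0 := F.filter (fun x => S₀ x = false) with hP0
    have hPP : ∀ q ∈ P1, q ∉ P0 := by
      intro q hq hq'
      have e1 := (Finset.mem_filter.1 hq).2
      have e2 := (Finset.mem_filter.1 hq').2
      rw [e1] at e2
      exact absurd e2 (by decide)
    obtain ⟨j1, hj1⟩ := Filter.eventually_atTop.1 (hep.eventually (hG i ca cb))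
    -- the finite set is short
    obtain ⟨m, hm⟩ : ∃ m, ∀ q ∈ F, q.length ≤ m :=
      ⟨F.sup List.length, fun q hq => Finset.le_sup (f := List.length) hq⟩
    obtain ⟨j2, hj2⟩ := Filter.eventually_atTop.1 (hep.eventually_ge_atTop m)
    have hE3 : ∃ᶠ j in Filter.atTop, R ∈ E3 X U (V i) e P1 P0 j := by
      refine (h3 i P1 P0).2 (tendsto_of_freq (fun j => cp_nonneg _ _ _ R)
        (ε := 1 / 128) (by norm_num) fun N' => ?_)
      obtain ⟨j, hj, hinc⟩ := hfreq (max N' (max j0 j1))
      have hjj0 : j0 ≤ j := (le_max_left _ _).trans ((le_max_right _ _).trans hj)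
      have hjj1 : j1 ≤ j := (le_max_right _ _).trans ((le_max_right _ _).trans hj)
      refine ⟨j, (le_max_left _ _).trans hj, ?_⟩
      obtain ⟨c, k1, k2, k3, k4, k5⟩ := hj1 j hjj1
      exact cp_E3 X U R j (V i) (hV i) he (hj0 j hjj0).2.2 P1 P0 hPP c k1
        (fun l g1 g2 => (k2 l g1 g2).1) k3 k4 k5 (hnC j hinc)
    obtain ⟨j, hj, hmem⟩ := Filter.frequently_atTop.1 hE3 (max N (max j1 j2))
    have hjN : N ≤ j := (le_max_left _ _).trans hj
    have hjj0 : j0 ≤ j := (le_max_right _ _).trans hjN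
    have hjj1 : j1 ≤ j := (le_max_left _ _).trans ((le_max_right _ _).trans hj)
    have hjj2 : j2 ≤ j := (le_max_right _ _).trans ((le_max_right _ _).trans hj)
    obtain ⟨-, z, hz, y, hy, S, hSA, hSB, hcase⟩ := hmem
    have b1 := pow_KK_le X U R j
    obtain ⟨c, k1, k2, k3, k4, k5⟩ := hj1 j hjj1
    set x := List.replicate (ep j + z) true with hx
    have hxl : x.length = ep j + z := List.length_replicate
    have hBl : B i x.length ≤ LL (ep j) := by
      rw [hxl]
      exact (k2 (ep j + z) (by omega) (by omega)).2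
    have hFl : ∀ q ∈ F, q.length ≤ LL (ep j) := fun q hq =>
      (hm q hq).trans ((hj2 j hjj2).trans (lt_LL _).le)
    -- the separator
    let S' : Oracle := fun q => if q.length ≤ LL (ep j) then S q else decide (q ∈ P)
    have hS' : Separator P Q S' := by
      refine ⟨fun q hq => ?_, fun q hq => ?_⟩
      · by_cases hl : q.length ≤ LL (ep j)
        · simp only [S', hl, if_true]
          refine hSA q ⟨hl, Or.inr ⟨fun h => ?_, (hAcc j hjj0 q hl).2 hq⟩⟩
          have e1 := (Finset.mem_filter.1 h).2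
          rw [hS₀.1 q hq] at e1
          exact absurd e1 (by decide)
        · simp only [S', hl, if_false, hq, decide_true]
      · by_cases hl : q.length ≤ LL (ep j)
        · simp only [S', hl, if_true]
          refine hSB q ⟨hl, Or.inr ⟨fun h => ?_, (hBcc j hjj0 q hl).2 hq⟩⟩
          have e1 := (Finset.mem_filter.1 h).2
          rw [hS₀.2 q hq] at e1
          exact absurd e1 (by decide)
        · have : q ∉ P := fun h => Set.disjoint_left.1 hdisj h hq
          simp only [S', hl, if_false, this, decide_false]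
    have hS'F : ∀ q ∈ F, S' q = S₀ q := by
      intro q hq
      have hl := hFl q hq
      simp only [S', hl, if_true]
      cases hv : S₀ q with
      | true => exact hSA q ⟨hl, Or.inl (Finset.mem_filter.2 ⟨hq, hv⟩)⟩
      | false => exact hSB q ⟨hl, Or.inl (Finset.mem_filter.2 ⟨hq, hv⟩)⟩
    have hDS := hD S' hS' hS'F x
    have hVV : ∀ a, V i O I S' x = some a →
        V i (trunc (mm (ep j)) O) (forced (SA X U P1 P0 j R) (SB X U P1 P0 j R)) S x =
          some a := by
      refine (hV i).ins _ _ _ _ _ _ x fun q hq => ?_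
      have hl : q.length ≤ LL (ep j) := hq.trans hBl
      have hSS : S' q = S q := by simp only [S', hl, if_true]
      refine ⟨?_, hSS.symm, fun hn => ?_, fun v hv => ?_, fun v hv => ?_⟩
      · have := hl.trans (LL_lt_mm _).le
        unfold trunc
        simp [this]
      · have hnP : q ∉ P := by
          intro hqP
          unfold forced at hn
          rw [if_pos] at hn
          · exact absurd hn (by simp)
          · refine ⟨hl, Or.inr ⟨fun h => ?_, (hAcc j hjj0 q hl).2 hqP⟩⟩
            have e1 := (Finset.mem_filter.1 h).2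
            rw [hS₀.1 q hqP] at e1
            exact absurd e1 (by decide)
        have hnQ : q ∉ Q := by
          intro hqQ
          have hB : SB X U P1 P0 j R q := by
            refine ⟨hl, Or.inr ⟨fun h => ?_, (hBcc j hjj0 q hl).2 hqQ⟩⟩
            have e1 := (Finset.mem_filter.1 h).2
            rw [hS₀.2 q hqQ] at e1
            exact absurd e1 (by decide)
          unfold forced at hn
          split_ifs at hn
        rw [hI]
        unfold forced
        rw [if_neg hnP, if_neg hnQ]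
      · rw [hI] at hv
        unfold forced at hv
        split_ifs at hv with h1 h2
        · rw [hS'.1 q h1]
          simpa using hv
        · rw [hS'.2 q h2]
          simpa using hv
      · rw [hSS]
        unfold forced at hv
        split_ifs at hv with h1 h2
        · rw [hSA q h1]
          simpa using hv
        · rw [hSB q h2]
          simpa using hv
    rcases hcase with ⟨ho, hn⟩ | ⟨ho, hn⟩
    · exact hn (hVV _ (hDS.1 ⟨j, z, hjN, hz, hx, y, hy, ho⟩))
    · exact hn (hVV _ (hDS.2 ⟨j, z, hjN, hz, hx, y, hy, ho⟩))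

end Pool.Agent.DNP.RT
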