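import Pool.Agent.Lib.MP_b9add9_lc.RT.Assembly

/-!
# Many-one reductions and Turing reductions with few surprises
-/

namespace Pool.Agent.DNP.RT

open ESY MeasureTheory

/-! ### growth -/

/-- the constants of the reductions considered grow slowly enough -/
theorem grow {T : ℕ → ℕ} (hT : Sub T) (d D : ℕ) :
    Grow (d + 2) (fun l => (T l + 1) ^ (poly d l + 1)) (fun l => poly D (2 * l + T l + 1)) := by
  intro ca cb
  have hl : Sub (fun l => 2 * l) := sub_mul (sub_const 2) sub_id
  have hB : Sub (fun l => poly D (2 * l + T l + 1)) :=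
    sub_poly (sub_add (sub_add hl hT) (sub_const 1)) D
  have hH : Sub (fun l => T l + 1 + poly D (2 * l + T l + 1)) :=
    sub_add (sub_add hT (sub_const 1)) hB
  obtain ⟨l0, hl0⟩ := Filter.eventually_atTop.1 (hH 2)
  refine Filter.eventually_atTop.2 ⟨max (max l0 4) (2 ^ (d + 3) + 16 * (20 + ca + cb + d)),
    fun n hn => ?_⟩
  have hn0 : l0 ≤ n := (le_max_left _ _).trans ((le_max_left _ _).trans hn)
  have hn1 : 4 ≤ n := (le_max_right _ _).trans ((le_max_left _ _).trans hn)
  have hn2 : 2 ^ (d + 3) + 16 * (20 + ca + cb + d) ≤ n := (le_max_right _ _).trans hn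
  -- small values
  have hsm : ∀ l, n ≤ l → l ≤ 2 * n → T l + 1 + poly D (2 * l + T l + 1) ≤ LL n := by
    intro l h1 h2
    have h3 := hl0 l (hn0.trans h1)
    have h4 : (T l + 1 + poly D (2 * l + T l + 1)) ^ 2 ≤ (2 ^ n) ^ 2 := by
      calc (T l + 1 + poly D (2 * l + T l + 1)) ^ 2 ≤ 2 ^ l := h3
        _ ≤ 2 ^ (2 * n) := Nat.pow_le_pow_right (by norm_num) h2
        _ = (2 ^ n) ^ 2 := by rw [← pow_mul, mul_comm]
    exact (Nat.pow_le_pow_iff_left (by norm_num)).1 h4
  set E := n * ((2 * n) ^ d) + (n + 1) * (1 + ca + cb + d) with hE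
  have h2E : ∀ m, m ≤ E → 2 ^ m ≤ 2 ^ E := fun m hm => Nat.pow_le_pow_right (by norm_num) hm
  have hE' : (n + 1) * (1 + ca + cb + d) = n * (ca + cb) + n * (d + 1) + 1 + ca + cb + d := by
    ring
  have hpoly : ∀ c, c ≤ ca + cb → poly c (LL n) ≤ 2 ^ (E + 1) := by
    intro c hc
    unfold poly LL
    have e1 : (2 ^ n) ^ c = 2 ^ (n * c) := (pow_mul _ _ _).symm
    have e2 : n * c ≤ E := by
      have : n * c ≤ n * (ca + cb) := Nat.mul_le_mul_left _ hc
      omega
    have e3 : c ≤ 2 ^ E := by
      have h1 : c ≤ E := by omega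
      exact h1.trans Nat.lt_two_pow_self.le
    have e4 := h2E _ e2
    rw [e1, pow_succ]
    omega
  refine ⟨2 ^ (E + 1), Nat.one_le_two_pow, fun l h1 h2 => ⟨?_, ?_⟩, hpoly ca (by omega),
    hpoly cb (by omega), ?_⟩
  · have h3 := hsm l h1 h2
    have h4 : T l + 1 ≤ 2 ^ n := by unfold LL at h3; omega
    have h5 : n * (poly d l + 1) ≤ E := by
      have h6 : l ^ d ≤ (2 * n) ^ d := Nat.pow_le_pow_left h2 d
      have h7 : n * (poly d l + 1) ≤ n * ((2 * n) ^ d + (d + 1)) :=
        Nat.mul_le_mul_left _ (by unfold poly; omega)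
      have h8 : n * ((2 * n) ^ d + (d + 1)) = n * ((2 * n) ^ d) + n * (d + 1) := by ring
      omega
    calc (T l + 1) ^ (poly d l + 1) ≤ (2 ^ n) ^ (poly d l + 1) := Nat.pow_le_pow_left h4 _
      _ = 2 ^ (n * (poly d l + 1)) := (pow_mul _ _ _).symm
      _ ≤ 2 ^ E := h2E _ h5
      _ ≤ 2 ^ (E + 1) := Nat.pow_le_pow_right (by norm_num) (by omega)
  · have h3 := hsm l h1 h2
    simp only
    omega
  · have h80 : 80 ≤ 2 ^ 7 := by norm_num
    have h3 : 7 + 2 * (E + 1) ≤ n ^ (d + 2) := by
      have e1 : n ^ (d + 2) = n ^ d * n ^ 2 := pow_add _ _ _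
      have e2 : (2 * n) ^ d = 2 ^ d * n ^ d := mul_pow _ _ _
      have e3 : 1 ≤ n ^ d := Nat.one_le_pow _ _ (by omega)
      have e4 : 2 ^ (d + 3) = 8 * 2 ^ d := by rw [pow_add]; ring
      have e5 : 8 * 2 ^ d ≤ n := by omega
      have e6 : 16 * (20 + ca + cb + d) ≤ n := by omega
      have a1 : 8 * (n * (2 ^ d * n ^ d)) ≤ n ^ d * n ^ 2 := by
        calc 8 * (n * (2 ^ d * n ^ d)) = (8 * 2 ^ d) * (n ^ d * n) := by ring
          _ ≤ n * (n ^ d * n) := Nat.mul_le_mul_right _ e5
          _ = n ^ d * n ^ 2 := by ring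
      have a3 : (n + 1) * (1 + ca + cb + d) ≤ 2 * n * (1 + ca + cb + d) :=
        Nat.mul_le_mul_right _ (by omega)
      have a4 : 16 * (n * (20 + ca + cb + d)) ≤ n ^ 2 := by
        calc 16 * (n * (20 + ca + cb + d)) = n * (16 * (20 + ca + cb + d)) := by ring
          _ ≤ n * n := Nat.mul_le_mul_left _ e6
          _ = n ^ 2 := (sq n).symm
      have a5 : n ^ 2 ≤ n ^ d * n ^ 2 := Nat.le_mul_of_pos_left _ (by omega)
      rw [e1, hE, e2]
      nlinarith
    calc 80 * (2 ^ (E + 1)) ^ 2 ≤ 2 ^ 7 * (2 ^ (E + 1)) ^ 2 := Nat.mul_le_mul_right _ h80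
      _ = 2 ^ (7 + 2 * (E + 1)) := by rw [← pow_mul, ← pow_add]; ring_nf
      _ ≤ 2 ^ (n ^ (d + 2)) := Nat.pow_le_pow_right (by norm_num) h3

/-! ### the reductions -/

/-- Turing reductions in time `T` with at most `κ` surprises -/
def VT (g h : List Bool → List Bool) (T κ : ℕ → ℕ) : Red := fun O s S x =>
  if (run O s (fun _ q => S q) g h x (T x.length)).o.length ≤ κ x.length then
    some (decide (g (pr x (run O s (fun _ q => S q) g h x (T x.length)).a) = [true, true]))
  else none

/-- many-one reductions in time `T` -/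
def VM (g : List Bool → List Bool) (T : ℕ → ℕ) : Red := fun O _ S x =>
  some (S (g (pr x (answers O g x (T x.length)))).tail)

theorem loc_VT {g : List Bool → List Bool} {D : ℕ} (hg : ∀ x, (g x).length ≤ poly D x.length)
    (h : List Bool → List Bool) (T : ℕ → ℕ) (d : ℕ) :
    Loc (VT g h T (poly d)) (fun l => (T l + 1) ^ (poly d l + 1))
      (fun l => poly D (2 * l + T l + 1)) where
  two O x := by
    obtain ⟨A, B, hAB, hloc⟩ := two_runs O (poly d x.length) g h x (T x.length)
    have hle : (T x.length + 1) ^ poly d x.length * T x.length ≤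
        (T x.length + 1) ^ (poly d x.length + 1) := by
      rw [pow_succ]
      exact Nat.mul_le_mul_left _ (Nat.le_succ _)
    refine ⟨A, B, fun s => ⟨(hAB s).1.trans hle, (hAB s).2.trans hle⟩,
      fun s₁ s₂ T' hT' O₁ O₂ T₁ T₂ hO hT => ?_⟩
    unfold VT
    by_cases h1 : (run O₁ s₁ (fun _ q => T₁ q) g h x (T x.length)).o.length ≤ poly d x.length
    · by_cases h2 : (run O₂ s₂ (fun _ q => T₂ q) g h x (T x.length)).o.length ≤ poly d x.length
      · right
        right
        rw [if_pos h1, if_pos h2, hloc s₁ s₂ T' hT' O₁ O₂ T₁ T₂ hO hT h1 h2]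
      · exact Or.inr (Or.inl (if_neg h2))
    · exact Or.inl (if_neg h1)
  fin O s S x := by
    classical
    refine ⟨(run O s (fun _ q => S q) g h x (T x.length)).s.toFinset, fun S' hS' => ?_⟩
    have := run_fin (O := O) (F := s) (S := S) (S' := S') (g := g) (h := h) (x := x)
      (t := T x.length) (fun q hq => hS' q (List.mem_toFinset.2 hq)) (T x.length) le_rfl
    unfold VT
    rw [this]
  ins O O' s s' S S' x hyp a ha := by
    obtain ⟨h1, h2⟩ := run_ins (h := h) hg hyp (T x.length) le_rfl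
    unfold VT at ha ⊢
    split_ifs at ha with hc
    rw [if_pos (h2.trans hc), h1, ha]

theorem loc_VM {g : List Bool → List Bool} {D : ℕ} (hg : ∀ x, (g x).length ≤ poly D x.length)
    (T : ℕ → ℕ) (d : ℕ) : Loc (VM g T) (fun l => (T l + 1) ^ (poly d l + 1))
      (fun l => poly D (2 * l + T l + 1)) where
  two O x := by
    classical
    have h1 : ∀ t, t + 1 ≤ (t + 1) ^ (poly d x.length + 1) := fun t => by
      rw [pow_succ]
      exact Nat.le_mul_of_pos_left _ (by positivity)
    refine ⟨fun _ => (queries O g x (T x.length)).toFinset,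
      fun _ => {(g (pr x (answers O g x (T x.length)))).tail}, fun s => ⟨?_, ?_⟩,
      fun s₁ s₂ T' hT' O₁ O₂ T₁ T₂ hO hT => Or.inr (Or.inr ?_)⟩
    · refine (List.toFinset_card_le _).trans ((length_queries _ _ _ _).trans ?_)
      exact (Nat.le_succ _).trans (h1 _)
    · rw [Finset.card_singleton]
      exact (Nat.le_add_left 1 (T x.length)).trans (h1 _)
    · unfold VM
      have e1 := hT _ (Finset.mem_singleton_self _) (Finset.mem_singleton_self _)
      rw [answers_congr (O := O) (O' := O₁) fun q hq =>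
          (hO q (List.mem_toFinset.2 hq) (List.mem_toFinset.2 hq)).1,
        answers_congr (O := O) (O' := O₂) fun q hq =>
          (hO q (List.mem_toFinset.2 hq) (List.mem_toFinset.2 hq)).2, e1.1, e1.2]
  fin O s S x := by
    classical
    refine ⟨{(g (pr x (answers O g x (T x.length)))).tail}, fun S' hS' => ?_⟩
    unfold VM
    rw [hS' _ (Finset.mem_singleton_self _)]
  ins O O' s s' S S' x hyp a ha := by
    unfold VM at ha ⊢
    have h2 := hg (pr x (answers O g x (T x.length)))
    rw [pr_length] at h2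
    have h3 := length_answers O g x (T x.length)
    have h4 : poly D (2 * x.length + (answers O g x (T x.length)).length + 1) ≤
      poly D (2 * x.length + T x.length + 1) := poly_mono' D (by omega)
    rw [answers_congr (O := O) (O' := O') fun q hq =>
      (hyp q (queries_bound hg O x _ q hq)).1, (hyp _ ?_).2.1]
    · exact ha
    · rw [List.length_tail]
      exact (Nat.sub_le _ _).trans (h2.trans h4)

/-- the run with forced answers is the true run -/
theorem VT_eq (g h : List Bool → List Bool) (T κ : ℕ → ℕ) (O S : Oracle) (A B : Set (List Bool))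
    (hS : Separator A B S) (x : List Bool)
    (hx : surprises (join O S) (A ∪ B) g h x (T x.length) ≤ κ x.length) :
    (VT g h T κ O (forced (· ∈ A) (· ∈ B)) S x = some true ↔
        Outputs (join O S) g x (T x.length) [true]) ∧
      (VT g h T κ O (forced (· ∈ A) (· ∈ B)) S x = some false ↔
        ¬ Outputs (join O S) g x (T x.length) [true]) := by
  have hD : {q | forced (· ∈ A) (· ∈ B) q ≠ none} = A ∪ B := by
    ext q
    unfold forced
    simp only [Set.mem_setOf_eq, Set.mem_union]
    split_ifs with h1 h2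
    · simp [h1]
    · simp [h2]
    · simp [h1, h2]
  obtain ⟨h1, h2⟩ := run_eq O S (forced (· ∈ A) (· ∈ B)) g h x (fun q v hv => by
    unfold forced at hv
    split_ifs at hv with h1 h2
    · rw [hS.1 q h1]
      simpa using hv
    · rw [hS.2 q h2]
      simpa using hv) (T x.length)
  rw [hD] at h2
  unfold VT Outputs
  rw [if_pos (by omega), h1]
  simp

end Pool.Agent.DNP.RT
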