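import Pool.Agent.Lib.MP_b9add9_lc.RT.Final

/-!
# No complete disjoint NP-pair relative to a random oracle, for Turing reductions with few surprises
-/

namespace Pool.Agent.DNP.RT

open ESY MeasureTheory

/-- **Main theorem.** -/
theorem main (X : Oracle) (T : ℕ → ℕ → ℕ) (hT : Subexponential T) :
    ∀ᵐ R ∂coin, ∀ A B, DisjointNPPair (join X R) A B → ∀ d : ℕ,
      ∃ A' B', DisjointNPPair (join X R) A' B' ∧ Tally A' ∧ Tally B' ∧
        ¬ ReducesTo T (join X R) A' B' A B ∧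
        ¬ TReducesTo T (poly d) (join X R) A' B' A B := by
  have hcount := countable_polyTime
  have hD : ∀ g : {g : List Bool → List Bool // PolyTime g}, ∃ D, ∀ x,
      (g.1 x).length ≤ poly D x.length := fun g => g.2.bound
  choose D hD using hD
  let ι := Bool × {g : List Bool → List Bool // PolyTime g} ×
    {g : List Bool → List Bool // PolyTime g} × ℕ
  let V : ℕ → ι → Red := fun d i =>
    if i.1 then VT i.2.1.1 i.2.2.1.1 (T i.2.2.2) (poly d) else VM i.2.1.1 (T i.2.2.2)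
  have hall : ∀ᵐ R ∂coin, ∀ d : ℕ, ∀ P Q, DisjointNPPair (join X R) P Q →
      ∃ P' Q', DisjointNPPair (join X R) P' Q' ∧ Tally P' ∧ Tally Q' ∧
        ∃ S, Separator P Q S ∧ ∀ i : ι, ∃ x,
          (x ∈ P' ∧ V d i (join X R) (forced (· ∈ P) (· ∈ Q)) S x ≠ some true) ∨
          (x ∈ Q' ∧ V d i (join X R) (forced (· ∈ P) (· ∈ Q)) S x ≠ some false) := by
    refine ae_all_iff.2 fun d => ?_
    refine main_general (e := d + 2) (by omega) (V d)
      (fun i l => (T i.2.2.2 l + 1) ^ (poly d l + 1))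
      (fun i l => poly (D i.2.1) (2 * l + T i.2.2.2 l + 1)) (fun i => ?_)
      (fun i => grow (fun k => hT i.2.2.2 k) d (D i.2.1)) X
    simp only [V]
    split
    · exact loc_VT (hD i.2.1) _ (T i.2.2.2) d
    · exact loc_VM (hD i.2.1) (T i.2.2.2) d
  filter_upwards [hall] with R hR A B hAB d
  obtain ⟨A', B', hAB', hA', hB', S, hS, h⟩ := hR d A B hAB
  refine ⟨A', B', hAB', hA', hB', ?_, ?_⟩
  · rintro ⟨f, ⟨g, c, hg, hf⟩, hfA, hfB⟩
    obtain ⟨x, hx⟩ := h (false, ⟨g, hg⟩, ⟨g, hg⟩, c)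
    have hv : VM g (T c) (join X R) (forced (· ∈ A) (· ∈ B)) S x = some (S (f x)) := by
      unfold VM
      have := hf x
      unfold Outputs at this
      rw [this]
      rfl
    simp only [V, Bool.false_eq_true, if_false] at hx
    rw [hv] at hx
    rcases hx with ⟨hx, hn⟩ | ⟨hx, hn⟩
    · exact hn (congrArg some (hS.1 _ (hfA x hx)))
    · exact hn (congrArg some (hS.2 _ (hfB x hx)))
  · intro hred
    obtain ⟨g, h', c, hg, hh', hgx⟩ := hred S hS
    obtain ⟨x, hx⟩ := h (true, ⟨g, hg⟩, ⟨h', hh'⟩, c)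
    simp only [V, if_true] at hx
    rcases hx with ⟨hx, hn⟩ | ⟨hx, hn⟩
    · obtain ⟨h1, h2⟩ := hgx x (Or.inl hx)
      exact hn ((VT_eq g h' (T c) (poly d) (join X R) S A B hS x h1).1.2 (h2.2 hx))
    · obtain ⟨h1, h2⟩ := hgx x (Or.inr hx)
      exact hn ((VT_eq g h' (T c) (poly d) (join X R) S A B hS x h1).2.2 fun ho =>
        Set.disjoint_left.1 hAB'.2.2 (h2.1 ho) hx)

end Pool.Agent.DNP.RT
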